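import Pool.Agent.Lib.FBC.RIB.Blue

/-!
The structure theorem in terms of an automorphism of a free group.
-/

namespace Pool.Agent.Lib.FBC.RIB

open Pool.Agent.Lib.MP_288210_al (LERF)
open SemidirectProduct

namespace Final

variable {F : Type} [Group F] (φ : MulAut F)

/-- the mapping torus -/
abbrev MT : Type := F ⋊[zpowersHom (MulAut F) φ] Multiplicative ℤ

/-- its degree -/
abbrev dd : Dg (MT φ) := rightHom

lemma conj_inl (z : MT φ) (x : F) :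
    z * inl x * z⁻¹ = inl (z.left * (φ ^ dg (dd φ) z) x * z.left⁻¹) := by
  conv_lhs => rw [← inl_left_mul_inr_right z]
  rw [map_mul, map_mul, map_inv, mul_inv_rev, ← map_inv inr]
  have := inl_aut (φ := zpowersHom (MulAut F) φ) z.right x
  rw [zpowersHom_apply] at this
  rw [show dg (dd φ) z = z.right.toAdd from rfl, this]
  simp only [mul_assoc]

/-- the kernel of the degree -/
noncomputable def ke : F ≃* (dd φ).ker :=
  (MonoidHom.ofInjective inl_injective).trans (MulEquiv.subgroupCongr range_inl_eq_ker_rightHom)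

lemma ke_val (x : F) : (ke φ x : MT φ) = inl x := rfl

lemma of_mem {w : MT φ} (h : w ∈ (dd φ).ker) : ∃ x, w = inl x :=
  ⟨(ke φ).symm ⟨w, h⟩, by rw [← ke_val, MulEquiv.apply_symm_apply]⟩

lemma inl_mem (x : F) : (inl x : MT φ) ∈ (dd φ).ker := (ke φ x).2

lemma per (h : Per (dd φ)) : ∃ (k : ℕ) (w : F), 0 < k ∧ ∀ x, (φ ^ k) x = w * x * w⁻¹ := by
  obtain ⟨z, h0, h1⟩ : ∃ z : MT φ, 0 < dg (dd φ) z ∧ ∀ x ∈ (dd φ).ker, z * x = x * z := by
    obtain ⟨z, h0, h1⟩ := h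
    rcases lt_or_gt_of_ne h0 with e | e
    · exact ⟨z⁻¹, by simpa [dg] using e, fun x hx => (Commute.inv_left (h1 x hx)).eq⟩
    · exact ⟨z, e, h1⟩
  refine ⟨(dg (dd φ) z).toNat, z.left⁻¹, by omega, fun x => ?_⟩
  have := conj_inl φ z x
  rw [h1 _ (inl_mem φ x), mul_inv_cancel_right] at this
  rw [← zpow_natCast, Int.toNat_of_nonneg h0.le]
  conv_rhs => rw [inl_injective this]
  group

/-- the stable letter to the power `k` -/
def tt (k : ℕ) : MT φ := inr (Multiplicative.ofAdd (k : ℤ))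

lemma conj_tt (k : ℕ) (x : F) : tt φ k * inl x * (tt φ k)⁻¹ = inl ((φ ^ k) x) := by
  rw [conj_inl]; simp [tt, dg]

lemma isConj_of {x y : F} {w : MT φ} (hw : w ∈ (dd φ).ker) (e : inl x = w * inl y * w⁻¹) :
    IsConj x y := by
  obtain ⟨w, rfl⟩ := of_mem φ hw
  rw [← map_inv, ← map_mul, ← map_mul] at e
  exact (isConj_iff.2 ⟨w, (inl_injective e).symm⟩).symm

lemma isConj_zpow {x y : F} (h : IsConj x y) (l : ℤ) : IsConj (x ^ l) (y ^ l) := by
  obtain ⟨c, rfl⟩ := isConj_iff.1 h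
  exact isConj_iff.2 ⟨c, conj_zpow.symm⟩

lemma periodic {b : ℕ} (u : Fin b → F)
    (h : ∀ (k : ℕ) j, ∃ i, IsConj ((φ ^ k) (u j)) (u i) ∨ IsConj ((φ ^ k) (u j)) (u i)⁻¹) (j : Fin b) :
    ∃ k : ℕ, 0 < k ∧ IsConj ((φ ^ k) (u j)) (u j) := by
  have : ∀ k : ℕ, ∃ s : Fin b × Bool, IsConj ((φ ^ k) (u j)) (cond s.2 (u s.1) (u s.1)⁻¹) :=
    fun k => by
      obtain ⟨i, e | e⟩ := h k j
      · exact ⟨(i, true), e⟩
      · exact ⟨(i, false), e⟩
  choose f hf using this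
  have key : ∀ k k', k < k' → f k = f k' → ∃ k : ℕ, 0 < k ∧ IsConj ((φ ^ k) (u j)) (u j) := by
    intro k k' hk e
    obtain ⟨s, rfl⟩ := Nat.exists_eq_add_of_lt hk
    have := (φ ^ k)⁻¹.toMonoidHom.map_isConj ((hf (k + s + 1)).trans (e ▸ hf k).symm)
    refine ⟨s + 1, by omega, ?_⟩
    simpa [add_assoc, pow_add φ k] using this
  obtain ⟨k, k', hne, e⟩ := Finite.exists_ne_map_eq_of_infinite f
  rcases lt_or_gt_of_ne hne with l | l
  · exact key _ _ l e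
  · exact key _ _ l e.symm

end Final

open Final in
theorem final_of (hM : St_MAIN) (hR : St_ROOT) (n : ℕ) (φ : MulAut (FreeGroup (Fin n)))
    (h : LERF (FreeGroup (Fin n) ⋊[zpowersHom (MulAut (FreeGroup (Fin n))) φ] Multiplicative ℤ)) :
    (∃ (k : ℕ) (w : FreeGroup (Fin n)), 0 < k ∧ ∀ x, (φ ^ k) x = w * x * w⁻¹) ∨
    ∃ (ψ : MulAut (FreeGroup (Fin n))) (b : ℕ) (c : Fin b → List (Fin n × Bool))
      (u : Fin b → FreeGroup (Fin n)), SurfW c ∧ (∀ j, u j = ψ (FreeGroup.mk (c j)) ∧ u j ≠ 1) ∧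
      (∀ j, ∃ i, IsConj (φ (u j)) (u i) ∨ IsConj (φ (u j)) (u i)⁻¹) ∧
      ∀ x, x ≠ 1 → ((∃ k : ℕ, 0 < k ∧ IsConj ((φ ^ k) x) x) ↔
        ∃ (j : Fin b) (l : ℤ), IsConj x (u j ^ l)) := by
  have fc : FC (dd φ) := ⟨rightHom_surjective, IsFreeGroup.ofMulEquiv (ke φ),
    (Group.fg_iff_subgroup_fg _).1 (Group.fg_of_surjective (f := (ke φ).toMonoidHom)
      (ke φ).surjective), h⟩
  rcases hM _ _ fc with hp | ⟨⟨m, b, β, c, u, sw, hu, h1, h2⟩, -⟩
  · exact Or.inl (per φ hp)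
  obtain rfl : n = m := Fin.equiv_iff_eq.1 ⟨Equiv.ofFreeGroupEquiv ((ke φ).trans β.repr)⟩
  set ψ : MulAut (FreeGroup (Fin n)) := β.repr.symm.trans (ke φ).symm with hψ
  have e : ∀ j, u j = inl (ψ (FreeGroup.mk (c j))) := fun j => by
    rw [hu, ← ke_val, hψ, MulEquiv.trans_apply, MulEquiv.apply_symm_apply, spell]
  have perm : ∀ (k : ℕ) j, ∃ i, IsConj ((φ ^ k) (ψ (FreeGroup.mk (c j)))) (ψ (FreeGroup.mk (c i))) ∨
      IsConj ((φ ^ k) (ψ (FreeGroup.mk (c j)))) (ψ (FreeGroup.mk (c i)))⁻¹ := fun k j => by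
    obtain ⟨i, w, hw, e1⟩ := h1 (tt φ k) j
    rw [e, e, conj_tt, ← map_inv] at e1
    exact ⟨i, e1.imp (isConj_of φ hw) (isConj_of φ hw)⟩
  refine Or.inr ⟨ψ, b, c, _, sw, fun j => ⟨rfl, fun e1 => ?_⟩, fun j => by simpa using perm 1 j,
    fun x hx => ⟨?_, ?_⟩⟩
  · simpa using hR n b c sw j j 1 0 (by simpa using e1)
  · rintro ⟨k, hk, hc⟩
    obtain ⟨a, ha⟩ := isConj_iff.1 hc
    obtain ⟨j, w, hw, l, e1⟩ := h2 (inl x) (inl_mem φ x)
      (fun e1 => hx (inl_injective (e1.trans (map_one _).symm))) (inl a * tt φ k)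
      (by simpa [tt, dg] using hk.ne') (by
        rw [← mul_inv_eq_iff_eq_mul, mul_inv_rev, mul_assoc (inl a), mul_assoc (inl a),
          ← mul_assoc _ (tt φ k)⁻¹, conj_tt, ← map_inv, ← map_mul, ← map_mul, ← mul_assoc, ha])
    rw [e, ← map_zpow] at e1
    exact ⟨j, l, isConj_of φ hw e1⟩
  · rintro ⟨j, l, hc⟩
    obtain ⟨k, hk, e1⟩ := periodic φ _ perm j
    refine ⟨k, hk, ((φ ^ k).toMonoidHom.map_isConj hc).trans (IsConj.trans ?_ hc.symm)⟩
    simpa using isConj_zpow e1 l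

end Pool.Agent.Lib.FBC.RIB
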