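import Pool.Agent.Lib.FBC.Blue0

/-!
Ribbon trees: the three involutions on flags, the finite quotient, and basic facts.
-/

namespace Pool.Agent.Lib.FBC.RIB

open Forest Relation

/-- torsion-free groups -/
def TF (K : Type) [Group K] : Prop := ∀ (k : K) (n : ℕ), n ≠ 0 → k ^ n = 1 → k = 1

lemma tf_of_free (K : Type) [Group K] (h : IsFreeGroup K) : TF K := fun k n hn e => by
  apply (IsFreeGroup.toFreeGroup K).injective
  have : (IsFreeGroup.toFreeGroup K k) ^ n = 1 ^ n := by rw [← map_pow, e, map_one, one_pow]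
  rw [map_one]
  exact pow_left_injective hn this

lemma TF.zpow {K : Type} [Group K] (h : TF K) {k : K} {n : ℤ} (hn : n ≠ 0) (e : k ^ n = 1) :
    k = 1 := h k n.natAbs (by simpa using hn) (by
  rcases Int.natAbs_eq n with e' | e'
  · rw [← zpow_natCast, ← e', e]
  · rw [← zpow_natCast, ← inv_eq_one, ← zpow_neg, ← e', e])

/-- An orbit of the rotation `b * a` is not invariant under the reflection `a`. -/
lemma dih {X : Type} (a b : Equiv.Perm X) (ha : a * a = 1) (hb : b * b = 1) (fa : ∀ x, a x ≠ x)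
    (fb : ∀ x, b x ≠ x) (x : X) (j : ℤ) : a x ≠ ((b * a) ^ j) x := by
  intro e
  have ia : a⁻¹ = a := inv_eq_of_mul_eq_one_right ha
  have ib : b⁻¹ = b := inv_eq_of_mul_eq_one_right hb
  have c : ∀ i : ℤ, a * (b * a) ^ i = (b * a) ^ (-i) * a := fun i => by
    have : a * (b * a) * a⁻¹ = (b * a)⁻¹ := by rw [mul_inv_rev, ib, mul_assoc, mul_inv_cancel_right, ia]
    rw [zpow_neg, ← inv_zpow, ← this, conj_zpow, inv_mul_cancel_right]
  have k : ∀ i : ℤ, a (((b * a) ^ i) x) = ((b * a) ^ (j - i)) x := fun i => by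
    rw [← Equiv.Perm.mul_apply, c, Equiv.Perm.mul_apply, e, ← Equiv.Perm.mul_apply, ← zpow_add]
    congr 2; ring
  obtain ⟨i, rfl | rfl⟩ := Int.even_or_odd' j
  · exact fa _ ((k i).trans (by congr 2; ring))
  · refine fb (a (((b * a) ^ i) x)) ?_
    rw [← Equiv.Perm.mul_apply b a, ← Equiv.Perm.mul_apply (b * a), ← zpow_one_add, k]
    congr 2; ring

/-- inverse of a signed letter -/
def linv {Λ : Type} (x : Λ × Bool) : Λ × Bool := (x.1, !x.2)

@[simp] lemma linv_linv {Λ : Type} (x : Λ × Bool) : linv (linv x) = x := by simp [linv]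

lemma linv_ne {Λ : Type} (x : Λ × Bool) : linv x ≠ x := fun h => by
  simpa [linv] using congrArg Prod.snd h

/-- the value of an optional signed letter -/
def ev {Λ H : Type} [Group H] (y : Λ → H) : Option (Λ × Bool) → H
  | none => 1
  | some (i, true) => y i
  | some (i, false) => (y i)⁻¹

lemma ev_linv {Λ H : Type} [Group H] (y : Λ → H) (x : Option (Λ × Bool)) :
    ev y (x.map linv) = (ev y x)⁻¹ := by
  rcases x with _ | ⟨i, _ | _⟩ <;> simp [ev, linv]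

lemma map_ev {Λ H H' : Type} [Group H] [Group H'] (χ : H →* H') (y : Λ → H)
    (x : Option (Λ × Bool)) : χ (ev y x) = ev (fun i => χ (y i)) x := by
  rcases x with _ | ⟨i, _ | _⟩ <;> simp [ev]

variable {K : Type} [Group K] {T : Forest (1 : Dg K)} (R : Ribbon T)

@[simp] lemma rv_rv (e : T.Dir) : e.rv.rv = e := by simp [Dir.rv]
@[simp] lemma src_rv (e : T.Dir) : e.rv.src = e.tgt := rfl
@[simp] lemma tgt_rv (e : T.Dir) : e.rv.tgt = e.src := by simp [Dir.rv, Dir.tgt, Dir.src]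
lemma rv_ne (e : T.Dir) : e.rv ≠ e := fun h => by simpa [Dir.rv] using congrArg Prod.snd h

/-- the vertex of a flag -/
def src (ξ : R.Fl) : T.V := (R.dart ξ).src

/-- reversal of a flag along its edge -/
def rP : Equiv.Perm R.Fl := Function.Involutive.toPerm R.rev R.rev_rev

/-- the other flag on the same dart -/
def oP : Equiv.Perm R.Fl := Function.Involutive.toPerm R.opp R.opp_opp

/-- the turn of the boundary line at the source of the flag -/
def nP : Equiv.Perm R.Fl := R.next * rP R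

lemma rP_apply (ξ : R.Fl) : rP R ξ = R.rev ξ := rfl
lemma oP_apply (ξ : R.Fl) : oP R ξ = R.opp ξ := rfl
lemma nP_apply (ξ : R.Fl) : nP R ξ = R.next (R.rev ξ) := rfl

@[simp] lemma rP_rP (ξ : R.Fl) : rP R (rP R ξ) = ξ := R.rev_rev ξ
@[simp] lemma oP_oP (ξ : R.Fl) : oP R (oP R ξ) = ξ := R.opp_opp ξ
@[simp] lemma nP_nP (ξ : R.Fl) : nP R (nP R ξ) = ξ := by
  rw [nP_apply, nP_apply, R.next_rev, R.rev_rev]

lemma rP_sq : rP R * rP R = 1 := Equiv.ext (rP_rP R)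
lemma oP_sq : oP R * oP R = 1 := Equiv.ext (oP_oP R)
lemma nP_sq : nP R * nP R = 1 := Equiv.ext (nP_nP R)

lemma next_eq : R.next = nP R * rP R := by rw [nP, mul_assoc, rP_sq, mul_one]
lemma nP_rP (ξ : R.Fl) : nP R (rP R ξ) = R.next ξ := by rw [next_eq]; rfl
lemma oP_rP (ξ : R.Fl) : oP R (rP R ξ) = rP R (oP R ξ) := R.opp_rev ξ

lemma rP_smul (k : K) (ξ : R.Fl) : rP R (k • ξ) = k • rP R ξ := R.rev_smul k ξ
lemma oP_smul (k : K) (ξ : R.Fl) : oP R (k • ξ) = k • oP R ξ := R.opp_smul k ξ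
lemma nP_smul (k : K) (ξ : R.Fl) : nP R (k • ξ) = k • nP R ξ := by
  rw [nP_apply, nP_apply, R.rev_smul, R.next_smul]

/-- powers of an equivariant permutation are equivariant -/
lemma zpow_smul_comm {X : Type} [MulAction K X] (a : Equiv.Perm X)
    (h : ∀ (k : K) x, a (k • x) = k • a x) (j : ℤ) (k : K) (x : X) :
    (a ^ j) (k • x) = k • (a ^ j) x := by
  have : Commute a (MulAction.toPerm k) := Equiv.ext (h k)
  exact congrArg (fun f : Equiv.Perm X => f x) (this.zpow_left j).eq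

lemma dart_rP (ξ : R.Fl) : R.dart (rP R ξ) = (R.dart ξ).rv := R.dart_rev ξ
lemma dart_oP (ξ : R.Fl) : R.dart (oP R ξ) = R.dart ξ := R.dart_opp ξ
lemma dart_nP_ne (ξ : R.Fl) : R.dart (nP R ξ) ≠ R.dart ξ := by
  have := R.ne_next (R.rev ξ)
  rwa [R.dart_rev, rv_rv] at this

@[simp] lemma src_smul (k : K) (ξ : R.Fl) : src R (k • ξ) = k • src R ξ := by
  rw [src, R.dart_smul, src_tr, src]
@[simp] lemma src_oP (ξ : R.Fl) : src R (oP R ξ) = src R ξ := by rw [src, dart_oP, src]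
@[simp] lemma src_nP (ξ : R.Fl) : src R (nP R ξ) = src R ξ := by
  rw [src, nP_apply, R.src_next, R.dart_rev, tgt_rv, src]
lemma src_rP (ξ : R.Fl) : src R (rP R ξ) = (R.dart ξ).tgt := by rw [src, dart_rP, src_rv]

lemma rP_ne (ξ : R.Fl) : rP R ξ ≠ ξ := fun h => rv_ne _ ((dart_rP R ξ).symm.trans (by rw [h]))
lemma oP_ne (ξ : R.Fl) : oP R ξ ≠ ξ := R.opp_ne ξ
lemma nP_ne (ξ : R.Fl) : nP R ξ ≠ ξ := fun h => dart_nP_ne R ξ (by rw [h])

lemma tr_eq_self {k : K} {e : T.Dir} (h : e.tr k = e) : k = 1 :=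
  smul_eq_self (congrArg Prod.fst h)

/-- the action on flags is free -/
lemma free {k : K} {ξ : R.Fl} (h : k • ξ = ξ) : k = 1 :=
  tr_eq_self (e := R.dart ξ) (by rw [← R.dart_smul, h])

lemma smul_left_inj {k k' : K} {ξ : R.Fl} (h : k • ξ = k' • ξ) : k = k' := by
  have : k'⁻¹ * k = 1 := free R (ξ := ξ) (by rw [mul_smul, h, inv_smul_smul])
  exact (inv_mul_eq_one.1 this).symm

/-- the rotation of the link of a vertex -/
def rho : Equiv.Perm R.Fl := nP R * oP R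

lemma rho_smul (j : ℤ) (k : K) (ξ : R.Fl) : (rho R ^ j) (k • ξ) = k • (rho R ^ j) ξ :=
  zpow_smul_comm (rho R) (fun k ξ => by
    rw [rho, Equiv.Perm.mul_apply, oP_smul, nP_smul]; rfl) j k ξ

lemma next_zpow_smul (j : ℤ) (k : K) (ξ : R.Fl) : (R.next ^ j) (k • ξ) = k • (R.next ^ j) ξ :=
  zpow_smul_comm R.next R.next_smul j k ξ

lemma oP_rho (j : ℤ) : oP R * rho R ^ j = rho R ^ (-j) * oP R := by
  have ia : (oP R)⁻¹ = oP R := inv_eq_of_mul_eq_one_right (oP_sq R)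
  have ib : (nP R)⁻¹ = nP R := inv_eq_of_mul_eq_one_right (nP_sq R)
  have : oP R * rho R * (oP R)⁻¹ = (rho R)⁻¹ := by
    rw [rho, mul_inv_rev, ib, mul_assoc, mul_inv_cancel_right, ia]
  rw [zpow_neg, ← inv_zpow, ← this, conj_zpow, inv_mul_cancel_right]

lemma nP_eq : nP R = rho R * oP R := by rw [rho, mul_assoc, oP_sq, mul_one]

lemma nP_oP_rho (j : ℤ) (ξ : R.Fl) : nP R (oP R ((rho R ^ j) ξ)) = (rho R ^ (j + 1)) ξ := by
  rw [add_comm, zpow_one_add]; rfl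

lemma nP_rho (j : ℤ) (ξ : R.Fl) : nP R ((rho R ^ j) ξ) = oP R ((rho R ^ (j - 1)) ξ) := by
  rw [← sub_add_cancel j 1, ← nP_oP_rho, nP_nP, add_sub_cancel_right]

lemma oP_rho_ne (i j : ℤ) (ξ : R.Fl) : oP R ((rho R ^ i) ξ) ≠ (rho R ^ j) ξ := fun h => by
  refine dih (oP R) (nP R) (oP_sq R) (nP_sq R) (oP_ne R) (nP_ne R) ((rho R ^ i) ξ) (j - i) ?_
  rw [h, ← rho, ← Equiv.Perm.mul_apply, ← zpow_add, sub_add_cancel]

lemma src_rho (j : ℤ) (ξ : R.Fl) : src R ((rho R ^ j) ξ) = src R ξ := by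
  induction j using Int.induction_on with
  | zero => rfl
  | succ j ih => rw [← nP_oP_rho, src_nP, src_oP, ih]
  | pred j ih => rw [← src_oP, ← nP_rho, src_nP, ih]

/-- the link of a vertex is one orbit of the dihedral group -/
lemma link (hc : R.Conn) {ξ ζ : R.Fl} (h : src R ξ = src R ζ) :
    ∃ j : ℤ, ζ = (rho R ^ j) ξ ∨ ζ = oP R ((rho R ^ j) ξ) := by
  have key : ∀ x y, R.Lk x y → ((∃ j : ℤ, x = (rho R ^ j) ξ ∨ x = oP R ((rho R ^ j) ξ)) ↔
      ∃ j : ℤ, y = (rho R ^ j) ξ ∨ y = oP R ((rho R ^ j) ξ)) := by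
    have o1 : ∀ x, (∃ j : ℤ, x = (rho R ^ j) ξ ∨ x = oP R ((rho R ^ j) ξ)) →
        ∃ j : ℤ, oP R x = (rho R ^ j) ξ ∨ oP R x = oP R ((rho R ^ j) ξ) := by
      rintro _ ⟨j, rfl | rfl⟩
      · exact ⟨j, Or.inr rfl⟩
      · exact ⟨j, Or.inl (oP_oP R _)⟩
    have n1 : ∀ x, (∃ j : ℤ, x = (rho R ^ j) ξ ∨ x = oP R ((rho R ^ j) ξ)) →
        ∃ j : ℤ, nP R x = (rho R ^ j) ξ ∨ nP R x = oP R ((rho R ^ j) ξ) := by
      rintro _ ⟨j, rfl | rfl⟩
      · exact ⟨j - 1, Or.inr (nP_rho R _ _)⟩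
      · exact ⟨j + 1, Or.inl (nP_oP_rho R _ _)⟩
    intro x y hxy
    induction hxy with
    | rel x y h =>
      rcases h with rfl | rfl
      · exact ⟨o1 x, fun h => by simpa using o1 (oP R x) h⟩
      · exact ⟨n1 x, fun h => by simpa using n1 (nP R x) h⟩
    | refl => rfl
    | symm _ _ _ ih => exact ih.symm
    | trans _ _ _ _ _ i1 i2 => exact i1.trans i2
  exact (key ξ ζ (hc ξ ζ h)).1 ⟨0, Or.inl rfl⟩

/-- induction over the link of a vertex -/
lemma link_ind (hc : R.Conn) {P : R.Fl → Prop} {ξ : R.Fl} (h0 : P ξ)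
    (ho : ∀ x, src R x = src R ξ → P x → P (oP R x))
    (hn : ∀ x, src R x = src R ξ → P x → P (nP R x)) {ζ : R.Fl} (h : src R ξ = src R ζ) :
    P ζ := by
  have : ∀ j : ℤ, P ((rho R ^ j) ξ) := fun j => by
    induction j using Int.induction_on with
    | zero => exact h0
    | succ j ih =>
      rw [← nP_oP_rho]
      exact hn _ (by rw [src_oP, src_rho]) (ho _ (src_rho R _ _) ih)
    | pred j ih =>
      rw [← oP_oP R ((rho R ^ _) ξ), ← nP_rho]
      exact ho _ (by rw [src_nP, src_rho]) (hn _ (src_rho R _ _) ih)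
  obtain ⟨j, rfl | rfl⟩ := link R hc h
  · exact this j
  · exact ho _ (src_rho R _ _) (this j)

lemma nonempty_fl (hI : Nonempty T.I) : Nonempty R.Fl :=
  let ⟨i⟩ := hI; let ⟨ξ, _⟩ := R.surj (⟨1, i⟩, false); ⟨ξ⟩

/-- every vertex carries a flag -/
lemma src_surj (hl : ∀ a, T.lev a = 0) (hI : Nonempty T.I) (a : T.V) : ∃ ξ, src R ξ = a := by
  obtain ⟨ξ⟩ := nonempty_fl R hI
  by_cases e : a = src R ξ
  · exact ⟨ξ, e.symm⟩
  · obtain ⟨d, hd⟩ := exists_First ((hl a).trans (hl _).symm) e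
    obtain ⟨ζ, rfl⟩ := R.surj d
    exact ⟨ζ, hd.1⟩

/-- induction over all flags -/
lemma fl_ind (hl : ∀ a, T.lev a = 0) (hc : R.Conn) {P : R.Fl → Prop} {ξ : R.Fl} (h0 : P ξ)
    (hr : ∀ x, P x → P (rP R x)) (ho : ∀ x, P x → P (oP R x)) (hn : ∀ x, P x → P (nP R x))
    (ζ : R.Fl) : P ζ := by
  have loc : ∀ x y, src R x = src R y → P x → P y := fun x y e h =>
    link_ind R hc h (fun z _ => ho z) (fun z _ => hn z) e
  refine geo_ind (v := src R ξ) (P := fun u => ∀ x, src R x = u → P x)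
    (fun x e => loc ξ x e.symm h0) (fun c b _ ih x e => ?_) ((hl (src R ζ)).trans (hl _).symm) ζ rfl
  obtain ⟨y, hy⟩ := R.surj (c, !b)
  refine loc (rP R y) x ?_ (hr y (ih y (by rw [src, hy]; rfl)))
  rw [src_rP, hy, e]; simp [Dir.tgt]

/-- flags modulo the group -/
def Q : Type := MulAction.orbitRel.Quotient K R.Fl

/-- the class of a flag -/
def p (ξ : R.Fl) : Q R := Quotient.mk'' ξ

lemma p_surj (φ : Q R) : ∃ ξ, p R ξ = φ := Quotient.exists_rep φ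

lemma p_eq {ξ ζ : R.Fl} : p R ξ = p R ζ ↔ ∃ k : K, k • ζ = ξ :=
  Quotient.eq''.trans MulAction.orbitRel_apply

@[simp] lemma p_smul (k : K) (ξ : R.Fl) : p R (k • ξ) = p R ξ := (p_eq R).2 ⟨k, rfl⟩

/-- an invariant function descends to the quotient -/
def qlift {α : Type} (f : R.Fl → α) (h : ∀ (k : K) ξ, f (k • ξ) = f ξ) : Q R → α :=
  Quotient.lift f (by rintro _ ζ ⟨k, rfl⟩; exact h k ζ)

@[simp] lemma qlift_p {α : Type} (f : R.Fl → α) (h : ∀ (k : K) ξ, f (k • ξ) = f ξ) (ξ : R.Fl) :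
    qlift R f h (p R ξ) = f ξ := rfl

/-- an equivariant involution descends to the quotient -/
def qperm (a : Equiv.Perm R.Fl) (h : ∀ (k : K) ξ, a (k • ξ) = k • a ξ) (h2 : ∀ ξ, a (a ξ) = ξ) :
    Equiv.Perm (Q R) :=
  Function.Involutive.toPerm (qlift R (fun ξ => p R (a ξ)) fun k ξ => by rw [h, p_smul])
    fun φ => by obtain ⟨ξ, rfl⟩ := p_surj R φ; simp [h2]

/-- reversal on the quotient -/
def qr : Equiv.Perm (Q R) := qperm R (rP R) (rP_smul R) (rP_rP R)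
/-- the turn on the quotient -/
def qn : Equiv.Perm (Q R) := qperm R (nP R) (nP_smul R) (nP_nP R)
/-- the other flag on the quotient -/
def qo : Equiv.Perm (Q R) := qperm R (oP R) (oP_smul R) (oP_oP R)

lemma qr_p (ξ : R.Fl) : qr R (p R ξ) = p R (rP R ξ) := rfl
lemma qn_p (ξ : R.Fl) : qn R (p R ξ) = p R (nP R ξ) := rfl
lemma qo_p (ξ : R.Fl) : qo R (p R ξ) = p R (oP R ξ) := rfl

@[simp] lemma qr_qr (φ : Q R) : qr R (qr R φ) = φ := by
  obtain ⟨ξ, rfl⟩ := p_surj R φ; rw [qr_p, qr_p, rP_rP]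
@[simp] lemma qn_qn (φ : Q R) : qn R (qn R φ) = φ := by
  obtain ⟨ξ, rfl⟩ := p_surj R φ; rw [qn_p, qn_p, nP_nP]
@[simp] lemma qo_qo (φ : Q R) : qo R (qo R φ) = φ := by
  obtain ⟨ξ, rfl⟩ := p_surj R φ; rw [qo_p, qo_p, oP_oP]
lemma qo_qr (φ : Q R) : qo R (qr R φ) = qr R (qo R φ) := by
  obtain ⟨ξ, rfl⟩ := p_surj R φ; rw [qr_p, qo_p, qo_p, qr_p, oP_rP]

/-- the edge orbit of a class of flags -/
def ty : Q R → T.I := qlift R (fun ξ => (R.dart ξ).1.i) fun k ξ => by rw [R.dart_smul]; rfl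

/-- the end of the edge at which the flags sit -/
def sd : Q R → Bool := qlift R (fun ξ => (R.dart ξ).2) fun k ξ => by rw [R.dart_smul]; rfl

lemma ty_p (ξ : R.Fl) : ty R (p R ξ) = (R.dart ξ).1.i := rfl
lemma sd_p (ξ : R.Fl) : sd R (p R ξ) = (R.dart ξ).2 := rfl

@[simp] lemma ty_qr (φ : Q R) : ty R (qr R φ) = ty R φ := by
  obtain ⟨ξ, rfl⟩ := p_surj R φ; rw [qr_p, ty_p, ty_p, dart_rP]; rfl
@[simp] lemma ty_qo (φ : Q R) : ty R (qo R φ) = ty R φ := by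
  obtain ⟨ξ, rfl⟩ := p_surj R φ; rw [qo_p, ty_p, ty_p, dart_oP]
@[simp] lemma sd_qr (φ : Q R) : sd R (qr R φ) = !sd R φ := by
  obtain ⟨ξ, rfl⟩ := p_surj R φ; rw [qr_p, sd_p, sd_p, dart_rP]; rfl
@[simp] lemma sd_qo (φ : Q R) : sd R (qo R φ) = sd R φ := by
  obtain ⟨ξ, rfl⟩ := p_surj R φ; rw [qo_p, sd_p, sd_p, dart_oP]

lemma qr_ne (φ : Q R) : qr R φ ≠ φ := fun h => by simpa using congrArg (sd R) h

lemma qo_ne (φ : Q R) : qo R φ ≠ φ := fun h => by
  obtain ⟨ξ, rfl⟩ := p_surj R φ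
  obtain ⟨k, e⟩ := (p_eq R).1 h
  have : k = 1 := tr_eq_self (e := R.dart ξ) (by rw [← R.dart_smul, e, dart_oP])
  rw [this, one_smul] at e
  exact oP_ne R ξ e.symm

lemma qn_ne (hK : TF K) (φ : Q R) : qn R φ ≠ φ := fun h => by
  obtain ⟨ξ, rfl⟩ := p_surj R φ
  obtain ⟨k, e⟩ := (p_eq R).1 h
  have : k = 1 := hK k 2 two_ne_zero (free R (ξ := ξ) (by
    rw [sq, mul_smul, e, ← nP_smul, e, nP_nP]))
  rw [this, one_smul] at e
  exact nP_ne R ξ e.symm

/-- two classes of flags over each orbit of darts -/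
lemma eq_of_ty_sd {φ ψ : Q R} (h1 : ty R φ = ty R ψ) (h2 : sd R φ = sd R ψ) :
    ψ = φ ∨ ψ = qo R φ := by
  obtain ⟨ξ, rfl⟩ := p_surj R φ
  obtain ⟨ζ, rfl⟩ := p_surj R ψ
  have e : R.dart (((R.dart ζ).1.g * (R.dart ξ).1.g⁻¹) • ξ) = R.dart ζ := by
    rw [R.dart_smul]
    exact Prod.ext (eq_smul_of_i h1).symm h2
  rcases R.uniq _ _ e with e | e
  · left; rw [e, p_smul]
  · right; rw [e, ← oP_apply, oP_smul, p_smul, qo_p]

lemma exists_ty_sd (i : T.I) (b : Bool) : ∃ φ, ty R φ = i ∧ sd R φ = b :=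
  let ⟨ξ, h⟩ := R.surj (⟨1, i⟩, b); ⟨p R ξ, by rw [ty_p, h], by rw [sd_p, h]⟩

/-- the four classes of flags over an orbit of edges -/
lemma eq_of_ty {φ ψ : Q R} (h : ty R φ = ty R ψ) :
    ψ = φ ∨ ψ = qo R φ ∨ ψ = qr R φ ∨ ψ = qo R (qr R φ) := by
  by_cases e : sd R φ = sd R ψ
  · rcases eq_of_ty_sd R h e with e | e <;> simp [e]
  · have : sd R (qr R φ) = sd R ψ := by rw [sd_qr]; exact (Bool.eq_not_iff.2 (Ne.symm e)).symm
    rcases eq_of_ty_sd R (φ := qr R φ) (by rw [ty_qr, h]) this with e | e <;> simp [e]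

instance : Finite (Q R) := by
  choose f hf using fun x : T.I × Bool => exists_ty_sd R x.1 x.2
  refine Finite.of_surjective (fun x : (T.I × Bool) × Bool => if x.2 then f x.1 else qo R (f x.1))
    fun φ => ?_
  rcases eq_of_ty_sd R (hf (ty R φ, sd R φ)).1 (hf (ty R φ, sd R φ)).2 with e | e
  · exact ⟨((ty R φ, sd R φ), true), e.symm⟩
  · exact ⟨((ty R φ, sd R φ), false), e.symm⟩

end Pool.Agent.Lib.FBC.RIB
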