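import Pool.Agent.Lib.FBC.RIB.Blue

/-!
Elliptic elements are conjugate to powers of letters of turns.
-/

namespace Pool.Agent.Lib.FBC.RIB

open Forest Relation

namespace ELL

variable {K : Type} [Group K] {T : Forest (1 : Dg K)} (R : Ribbon T)

/-- an element fixing the vertex of a flag rotates the link -/
lemma rot (hK : TF K) (hc : R.Conn) {k : K} {ξ : R.Fl} (h : k • src R ξ = src R ξ) :
    ∃ j : ℤ, k • ξ = (rho R ^ j) ξ := by
  obtain ⟨j, e | e⟩ := link R hc (ξ := ξ) (ζ := k • ξ) (by rw [src_smul, h])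
  · exact ⟨j, e⟩
  · have h1 : oP R * rho R ^ j * (oP R * rho R ^ j) = 1 := by
      nth_rewrite 1 [oP_rho]
      rw [mul_assoc, ← mul_assoc (oP R), oP_sq, one_mul, ← zpow_add, neg_add_cancel, zpow_zero]
    have h2 : k ^ 2 • ξ = ξ := by
      rw [sq, mul_smul, e, ← oP_smul, ← rho_smul, e]
      exact congrArg (fun f : Equiv.Perm R.Fl => f ξ) h1
    exact ⟨0, by rw [hK k 2 two_ne_zero (free R h2), one_smul]; rfl⟩

/-- the stabiliser of a vertex is commutative -/
lemma comm (hK : TF K) (hc : R.Conn) {k k' : K} {ξ : R.Fl} (h : k • src R ξ = src R ξ)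
    (h' : k' • src R ξ = src R ξ) : k * k' = k' * k := by
  obtain ⟨j, e⟩ := rot R hK hc h
  obtain ⟨j', e'⟩ := rot R hK hc h'
  refine smul_left_inj R (ξ := ξ) ?_
  rw [mul_smul, mul_smul, e, e', ← rho_smul, ← rho_smul, e, e', ← Equiv.Perm.mul_apply,
    ← Equiv.Perm.mul_apply, ← zpow_add, ← zpow_add, add_comm]

/-- distinct basis elements do not commute -/
lemma basis_comm {m : ℕ} (β : FreeGroupBasis (Fin m) K) {i j : Fin m}
    (h : Commute (β i) (β j)) : i = j := by
  by_contra hij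
  let f : Fin m → Equiv.Perm (Fin 3) := fun l => if l = i then Equiv.swap 0 1 else Equiv.swap 1 2
  have h1 := h.map (β.lift f)
  have e : ∀ l, β.lift f (β l) = f l := fun l => by
    simp [FreeGroupBasis.lift]
  rw [e, e] at h1
  simp only [f, if_true, if_neg (Ne.symm hij)] at h1
  exact absurd h1.eq (by decide)

variable {R} (S : Sec R)

lemma comm_link (hK : TF K) (hc : R.Conn) {ξ x z : R.Fl} (hx : src R x = src R ξ)
    (hz : src R z = src R ξ) :
    Commute ((S.π ξ)⁻¹ * S.π x) ((S.π ξ)⁻¹ * S.π z) := by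
  obtain ⟨k, hk, e⟩ := S.loc ξ x hx.symm
  obtain ⟨k', hk', e'⟩ := S.loc ξ z hz.symm
  have := comm R hK hc hk hk'
  rw [e, e', Commute, SemiconjBy]
  calc (S.π ξ)⁻¹ * (k * S.π ξ) * ((S.π ξ)⁻¹ * (k' * S.π ξ))
      = (S.π ξ)⁻¹ * (k * k') * S.π ξ := by group
    _ = (S.π ξ)⁻¹ * (k' * k) * S.π ξ := by rw [this]
    _ = _ := by group

lemma commute_of_ev {Λ : Type} (y : Λ → K) (a b : Λ × Bool)
    (h : Commute (ev y (some a)) (ev y (some b))) : Commute (y a.1) (y b.1) := by
  rcases a with ⟨i, _ | _⟩ <;> rcases b with ⟨j, _ | _⟩ <;> simpa [ev] using h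

lemma ev_mem {Λ : Type} (y : Λ → K) (a : Λ × Bool) :
    ev y (some a) ∈ Subgroup.zpowers (y a.1) := by
  rcases a with ⟨i, _ | _⟩
  · exact inv_mem (Subgroup.mem_zpowers _)
  · exact Subgroup.mem_zpowers _

end ELL

open ELL in
theorem stELL : St_ELL := by
  intro K _ hK T R hl hI hc S m L β hβ x a hx hx1
  obtain ⟨ξ, rfl⟩ := src_surj R hl hI a
  have hs : src R ξ = src R (x • ξ) := by rw [src_smul, hx]
  have hev : ∀ z, ev L.y (L.l1 (p R z)) =
      ((S.π ξ)⁻¹ * S.π z)⁻¹ * ((S.π ξ)⁻¹ * S.π (nP R z)) := fun z => by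
    rw [L.ev1]; group
  by_cases h : ∃ z, src R z = src R ξ ∧ L.l1 (p R z) ≠ none
  · obtain ⟨z, hz, hn⟩ := h
    obtain ⟨u, hu⟩ := Option.ne_none_iff_exists'.1 hn
    have key : (S.π ξ)⁻¹ * S.π (x • ξ) ∈ Subgroup.zpowers (L.y u.1) := by
      refine link_ind R hc (P := fun z => (S.π ξ)⁻¹ * S.π z ∈ Subgroup.zpowers (L.y u.1))
        (by simp) (fun w _ hw => by rwa [S.opp]) (fun w hw ih => ?_) hs
      rw [L.ev1, ← mul_assoc]
      refine mul_mem ih ?_
      rcases e : L.l1 (p R w) with _ | v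
      · exact one_mem _
      · have c : Commute (ev L.y (some v)) (ev L.y (some u)) := by
          rw [← e, ← hu, hev, hev]
          have a1 := comm_link S hK hc hw hz
          have a2 := comm_link S hK hc hw ((src_nP R z).trans hz)
          have a3 := comm_link S hK hc ((src_nP R w).trans hw) hz
          have a4 := comm_link S hK hc ((src_nP R w).trans hw) ((src_nP R z).trans hz)
          exact ((a1.inv_right.mul_right a2).inv_left).mul_left (a3.inv_right.mul_right a4)
        have c' := commute_of_ev L.y v u c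
        rw [← hβ, ← hβ] at c'
        rw [← basis_comm β c']
        exact ev_mem L.y v
    obtain ⟨n, hn⟩ := Subgroup.mem_zpowers_iff.1 key
    refine ⟨p R z, u, S.π ξ, n, hu, ?_⟩
    rw [hn, S.smul]; group
  · exfalso
    have key : S.π (x • ξ) = S.π ξ := by
      refine link_ind R hc (P := fun z => S.π z = S.π ξ) rfl (fun w _ hw => by rwa [S.opp])
        (fun w hw ih => ?_) hs
      rw [(L.none1 w).1 (by by_contra e; exact h ⟨w, hw, e⟩), ih]
    rw [S.smul] at key
    exact hx1 (mul_eq_right.1 key)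

end Pool.Agent.Lib.FBC.RIB
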