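import Pool.Agent.Lib.FBC.RIB.Blue

/-!
The letters form a basis.
-/

namespace Pool.Agent.Lib.FBC.RIB

open Forest Relation

theorem stBAS2 (hF : St_POTF) : St_BAS := by
  intro K _ hK T R hl hI hc S m L
  obtain ⟨x0, h0⟩ : ∃ x0, S.π x0 = 1 :=
    let ⟨ξ⟩ := nonempty_fl R hI; ⟨(S.π ξ)⁻¹ • ξ, by rw [S.smul, inv_mul_cancel]⟩
  have evm : ∀ z, ev L.y z ∈ Subgroup.closure (Set.range L.y) := by
    rintro (_ | ⟨i, _ | _⟩)
    · exact one_mem _
    · exact inv_mem (Subgroup.subset_closure ⟨i, rfl⟩)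
    · exact Subgroup.subset_closure ⟨i, rfl⟩
  have gen : Subgroup.closure (Set.range L.y) = ⊤ := by
    refine eq_top_iff.2 fun k _ => ?_
    have := fl_ind R hl hc (P := fun x => S.π x ∈ Subgroup.closure (Set.range L.y)) (ξ := x0)
      (h0 ▸ one_mem _) (fun x h => L.ev0 x ▸ mul_mem h (evm _)) (fun x h => S.opp x ▸ h)
      (fun x h => L.ev1 x ▸ mul_mem h (evm _)) (k • x0)
    simpa only [S.smul, h0, mul_one] using this
  refine ⟨FreeGroupBasis.ofUniqueLift (Fin m) L.y fun {H} _ f => ?_, fun i => ?_⟩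
  swap
  · exact FreeGroup.lift_apply_of (f := L.y)
  obtain ⟨Φ, p0, p1, p2⟩ := hF K hK T R hl hc H (fun x => ev f (L.l0 (p R x)))
    (fun x => ev f (L.l1 (p R x))) (fun x => by rw [← qr_p, L.inv0, ev_linv])
    (fun x => by rw [← qo_p, L.opp0]) (fun x => by rw [← qn_p, L.inv1, ev_linv]) (fun x h => by
      obtain ⟨k, h1, h2⟩ := S.loc x (nP R x) (src_nP R x).symm
      rw [h k h1, one_mul] at h2
      rw [(L.none1 x).2 h2]; rfl)
  have eqv : ∀ (k : K) x, Φ (k • x) = Φ (k • x0) * (Φ x0)⁻¹ * Φ x := fun k =>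
    fl_ind R hl hc (P := fun x => Φ (k • x) = Φ (k • x0) * (Φ x0)⁻¹ * Φ x) (ξ := x0) (by simp)
      (fun x h => by rw [← rP_smul, p1, p1, h, p_smul, mul_assoc])
      (fun x h => by rw [← oP_smul, p0, p0, h])
      (fun x h => by rw [← nP_smul, p2, p2, h, p_smul, mul_assoc])
  let χ : K →* H := MonoidHom.mk' (fun k => (Φ x0)⁻¹ * Φ (k • x0)) fun a b => by
    rw [mul_smul, eqv a (b • x0)]; simp only [mul_assoc]
  have fib : ∀ x y, S.π x = S.π y → Φ x = Φ y := fun x y h => by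
    have c := S.conn x y h
    clear h
    induction c with
    | rel x y h =>
      rcases h with rfl | ⟨rfl, h⟩ | ⟨rfl, h⟩
      · exact (p0 x).symm
      · rw [p2, (L.none1 x).2 h]; exact (mul_one _).symm
      · rw [p1, (L.none0 _).2 h]; exact (mul_one _).symm
    | refl => rfl
    | symm _ _ _ ih => exact ih.symm
    | trans _ _ _ _ _ i1 i2 => exact i1.trans i2
  have val : ∀ x, χ (S.π x) = (Φ x0)⁻¹ * Φ x := fun x =>
    congrArg _ (fib _ _ (by rw [S.smul, h0, mul_one]))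
  have hy : ∀ i, χ (L.y i) = f i := fun i => by
    rcases L.two (i, true) with ⟨φ, h, -⟩ | ⟨φ, h, -⟩ <;> obtain ⟨x, rfl⟩ := p_surj R φ
    · have := val (rP R x)
      rw [L.ev0, p1, map_mul, val, (h _).2 (Or.inl rfl), mul_assoc] at this
      exact mul_left_cancel (mul_left_cancel this)
    · have := val (nP R x)
      rw [L.ev1, p2, map_mul, val, (h _).2 rfl, mul_assoc] at this
      exact mul_left_cancel (mul_left_cancel this)
  refine ⟨χ, hy, fun χ' h => MonoidHom.eq_of_eqOn_dense gen ?_⟩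
  rintro _ ⟨i, rfl⟩
  exact (h i).trans (hy i).symm

end Pool.Agent.Lib.FBC.RIB
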