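import Pool.Agent.Lib.FBC.RIB.Blue

/-!
The boundary words are nonempty and every letter occurs twice.
-/

namespace Pool.Agent.Lib.FBC.RIB

namespace CNT

open Finset

/-- the number of occurrences of a letter in a word read along an interval -/
lemma cnt {m : ℕ} (f : ℕ → Option (Fin m × Bool)) (i : Fin m) (n : ℕ) :
    (((List.range n).filterMap f).map Prod.fst).count i =
      ∑ k ∈ range n, ((if f k = some (i, true) then 1 else 0) +
        (if f k = some (i, false) then 1 else 0)) := by
  induction n with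
  | zero => simp
  | succ n ih =>
    rw [List.range_succ, List.filterMap_append, List.map_append, List.count_append, ih,
      sum_range_succ]
    congr 1
    rcases h : f n with _ | ⟨a, _ | _⟩ <;> simp [h, List.count_cons]

lemma pow_mod {Ω : Type} (σ : Equiv.Perm Ω) {a : Ω} {q : ℕ} (h : (σ ^ q) a = a) (k : ℕ) :
    (σ ^ (k % q)) a = (σ ^ k) a := by
  have : ∀ t : ℕ, (σ ^ (q * t)) a = a := fun t => by
    induction t with
    | zero => simp
    | succ t ih => rw [Nat.mul_succ, pow_add, Equiv.Perm.mul_apply, h, ih]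
  conv_rhs => rw [← Nat.mod_add_div k q, pow_add, Equiv.Perm.mul_apply, this]

end CNT

open Finset in
theorem stCNT : St_CNT := by
  intro Ω m τ ι lab G b ω q C
  classical
  refine ⟨fun j h => ?_, fun i => ?_⟩
  · obtain ⟨k, hk⟩ := G.cyc (ω j)
    rw [← CNT.pow_mod _ (C.per j)] at hk
    exact hk (List.filterMap_eq_nil_iff.1 h _ (List.mem_range.2 (Nat.mod_lt _ (C.pos j))))
  · have := G.fin
    have := Fintype.ofFinite Ω
    have ιι : ∀ a, ι (ι a) = a := fun a => by rw [← Equiv.Perm.mul_apply, G.ι2]; rfl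
    set B : Finset Ω := univ.filter fun a => ∃ j k, k < q j ∧ a = ((τ * ι) ^ k) (ω j) with hB
    have key : ∀ g : Ω → ℕ, ∑ j, ∑ k ∈ range (q j), g (((τ * ι) ^ k) (ω j)) = ∑ a ∈ B, g a := by
      intro g
      rw [sum_sigma']
      refine sum_bij (fun x _ => ((τ * ι) ^ x.2) (ω x.1)) ?_ ?_ ?_ fun _ _ => rfl
      · intro x hx
        exact mem_filter.2 ⟨mem_univ _, x.1, x.2, by simpa using hx, rfl⟩
      · rintro ⟨j, k⟩ hx ⟨j', k'⟩ hx' e
        obtain ⟨rfl, rfl⟩ := C.inj j j' k k' (by simpa using hx) (by simpa using hx') e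
        rfl
      · intro a ha
        obtain ⟨j, k, hk, rfl⟩ := (mem_filter.1 ha).2
        exact ⟨⟨j, k⟩, by simpa using hk, rfl⟩
    have hι : ∀ a, a ∈ B ↔ ι a ∈ Bᶜ := fun a => by
      simpa [hB] using C.cover a
    have sw : ∑ a ∈ B, (if lab a = some (i, false) then 1 else 0) =
        ∑ a ∈ Bᶜ, (if lab a = some (i, true) then 1 else 0 : ℕ) := by
      refine sum_equiv ι hι fun a _ => ?_
      rw [G.inv]
      rcases lab a with _ | ⟨c, _ | _⟩ <;> simp [linv]
    have := key fun a => (if lab a = some (i, true) then 1 else 0) +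
      (if lab a = some (i, false) then 1 else 0)
    simp only [W, CNT.cnt]
    rw [this, sum_add_distrib, sw, sum_add_sum_compl]
    obtain ⟨a, a', hne, h2⟩ := G.two (i, true)
    rw [← card_filter, ← card_pair hne]
    congr 1
    ext c
    simp [h2]

end Pool.Agent.Lib.FBC.RIB
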