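import Pool.Agent.Lib.FBC.RIB.Blue

/-!
Choice of one orientation and one base point on each unoriented cycle.
-/

namespace Pool.Agent.Lib.FBC.RIB

open Equiv Equiv.Perm

namespace CYC

variable {Ω : Type} {τ ι : Perm Ω}

lemma sc_iota (hτ : τ * τ = 1) (hι : ι * ι = 1) {x y : Ω} (h : SameCycle (τ * ι) x y) :
    SameCycle (τ * ι) (ι x) (ι y) := by
  obtain ⟨j, rfl⟩ := h
  have ia : ι⁻¹ = ι := inv_eq_of_mul_eq_one_right hι
  have ib : τ⁻¹ = τ := inv_eq_of_mul_eq_one_right hτ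
  have e : ι * (τ * ι) * ι⁻¹ = (τ * ι)⁻¹ := by
    rw [mul_inv_rev, ib, mul_assoc, mul_inv_cancel_right, ia]
  have c : ι * (τ * ι) ^ j = (τ * ι) ^ (-j) * ι := by
    rw [zpow_neg, ← inv_zpow, ← e, conj_zpow, inv_mul_cancel_right]
  exact ⟨-j, by rw [← Perm.mul_apply, ← c, Perm.mul_apply]⟩

lemma per_pt [Finite Ω] (s : Perm Ω) (x : Ω) : x ∈ Function.periodicPts s :=
  Function.mem_periodicPts.2 ⟨orderOf s, orderOf_pos s, by
    show s^[orderOf s] x = x
    rw [← Perm.coe_pow, pow_orderOf_eq_one]; rfl⟩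

lemma sc_iff [Finite Ω] (s : Perm Ω) (x y : Ω) :
    (∃ i, i < Function.minimalPeriod s x ∧ y = (s ^ i) x) ↔ SameCycle s x y := by
  constructor
  · rintro ⟨i, -, rfl⟩
    exact ⟨i, by rw [zpow_natCast]⟩
  · intro h
    obtain ⟨n, rfl⟩ := h.exists_nat_pow_eq
    refine ⟨n % Function.minimalPeriod s x,
      Nat.mod_lt _ (Function.minimalPeriod_pos_of_mem_periodicPts (per_pt s x)), ?_⟩
    rw [Perm.coe_pow, Perm.coe_pow, Function.iterate_mod_minimalPeriod_eq]

end CYC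

open CYC

theorem stCYC : St_CYC := by
  intro Ω m τ ι lab h
  have := h.fin
  set s := τ * ι with hs
  let S := SameCycle.setoid s
  let O := Quotient S
  let ιO : O → O := Quotient.map ι fun x y hxy => sc_iota h.τ2 h.ι2 hxy
  have ii : ∀ x, ι (ι x) = x := fun x => by rw [← Perm.mul_apply, h.ι2]; rfl
  have ιι : ∀ o, ιO (ιO o) = o := fun o => Quotient.inductionOn o fun x => by
    show (⟦ι (ι x)⟧ : O) = ⟦x⟧
    rw [ii]
  have ιne : ∀ o, ιO o ≠ o := fun o => Quotient.inductionOn o fun x e => by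
    obtain ⟨j, hj⟩ : SameCycle s x (ι x) := Quotient.exact e.symm
    exact dih ι τ h.ι2 h.τ2 h.ιne h.τne x j hj.symm
  obtain ⟨e, he⟩ := exists_injective_nat O
  let A := {o : O // e o < e (ιO o)}
  obtain ⟨b, ⟨φ⟩⟩ := Finite.exists_equiv_fin A
  have key : ∀ a, (∃ j i, i < Function.minimalPeriod s (φ.symm j).1.out ∧
      a = (s ^ i) (φ.symm j).1.out) ↔ e ⟦a⟧ < e (ιO ⟦a⟧) := fun a => by
    simp only [sc_iff]
    constructor
    · rintro ⟨j, hj⟩
      have : (φ.symm j).1 = ⟦a⟧ := by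
        rw [← Quotient.out_eq (φ.symm j).1]; exact Quotient.sound hj
      rw [← this]; exact (φ.symm j).2
    · intro ha
      refine ⟨φ ⟨⟦a⟧, ha⟩, ?_⟩
      rw [φ.symm_apply_apply]
      exact Quotient.exact (s := S) (Quotient.out_eq _)
  refine ⟨b, fun j => (φ.symm j).1.out, fun j => Function.minimalPeriod s (φ.symm j).1.out,
    fun j => Function.minimalPeriod_pos_of_mem_periodicPts (per_pt s _), fun j => ?_,
    fun j j' i i' hi hi' hh => ?_, fun a => ?_⟩
  · rw [Perm.coe_pow]; exact Function.isPeriodicPt_minimalPeriod _ _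
  · have sc : SameCycle s (φ.symm j).1.out (φ.symm j').1.out :=
      (show SameCycle s _ ((s ^ i) (φ.symm j).1.out) from ⟨i, by rw [zpow_natCast]⟩).trans
        (hh ▸ (show SameCycle s _ ((s ^ i') (φ.symm j').1.out) from
          ⟨i', by rw [zpow_natCast]⟩).symm)
    have : j = j' := φ.symm.injective (Subtype.ext (by
      rw [← Quotient.out_eq (φ.symm j).1, ← Quotient.out_eq (φ.symm j').1]
      exact Quotient.sound sc))
    subst this
    refine ⟨rfl, ?_⟩
    rw [Perm.coe_pow, Perm.coe_pow] at hh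
    exact Function.iterate_injOn_Iio_minimalPeriod hi hi' hh
  · rw [key, key]
    have e1 : (⟦ι a⟧ : O) = ιO ⟦a⟧ := rfl
    rw [e1, ιι]
    have : e ⟦a⟧ ≠ e (ιO ⟦a⟧) := fun q => ιne _ (he q).symm
    omega

end Pool.Agent.Lib.FBC.RIB
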