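import Pool.Agent.Lib.FBC.RIB.Blue

/-!
Existence of the letters for the sides of the disc.
-/

namespace Pool.Agent.Lib.FBC.RIB

open Forest

namespace LAB

variable {K : Type} [Group K] {T : Forest (1 : Dg K)} {R : Ribbon T} (S : Sec R)

/-- the jump of the position along a reversal -/
def lam0 : Q R → K := qlift R (fun ξ => (S.π ξ)⁻¹ * S.π (rP R ξ)) fun k ξ => by
  rw [rP_smul, S.smul, S.smul, mul_inv_rev, mul_assoc, inv_mul_cancel_left]

/-- the jump of the position along a turn -/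
def lam1 : Q R → K := qlift R (fun ξ => (S.π ξ)⁻¹ * S.π (nP R ξ)) fun k ξ => by
  rw [nP_smul, S.smul, S.smul, mul_inv_rev, mul_assoc, inv_mul_cancel_left]

lemma lam0_p (ξ : R.Fl) : lam0 S (p R ξ) = (S.π ξ)⁻¹ * S.π (rP R ξ) := rfl
lemma lam1_p (ξ : R.Fl) : lam1 S (p R ξ) = (S.π ξ)⁻¹ * S.π (nP R ξ) := rfl

lemma lam0_qr (φ : Q R) : lam0 S (qr R φ) = (lam0 S φ)⁻¹ := by
  obtain ⟨ξ, rfl⟩ := p_surj R φ
  rw [qr_p, lam0_p, lam0_p, rP_rP, mul_inv_rev, inv_inv]

lemma lam0_qo (φ : Q R) : lam0 S (qo R φ) = lam0 S φ := by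
  obtain ⟨ξ, rfl⟩ := p_surj R φ
  rw [qo_p, lam0_p, lam0_p, ← oP_rP, S.opp, S.opp]

lemma lam1_qn (φ : Q R) : lam1 S (qn R φ) = (lam1 S φ)⁻¹ := by
  obtain ⟨ξ, rfl⟩ := p_surj R φ
  rw [qn_p, lam1_p, lam1_p, nP_nP, mul_inv_rev, inv_inv]

lemma lam0_Z {φ : Q R} (h : ty R φ ∈ S.Z) : lam0 S φ = 1 := by
  obtain ⟨ξ, rfl⟩ := p_surj R φ
  rw [lam0_p, S.rev ξ h, inv_mul_cancel]

/-- letters indexed by any finite type -/
lemma transfer {Λ : Type} [Finite Λ] (y : Λ → K) (l0 l1 : Q R → Option (Λ × Bool))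
    (ev0 : ∀ φ, ev y (l0 φ) = lam0 S φ) (ev1 : ∀ φ, ev y (l1 φ) = lam1 S φ)
    (none0 : ∀ φ, l0 φ = none ↔ ty R φ ∈ S.Z) (none1 : ∀ φ, l1 φ = none ↔ lam1 S φ = 1)
    (inv0 : ∀ φ, l0 (qr R φ) = (l0 φ).map linv) (inv1 : ∀ φ, l1 (qn R φ) = (l1 φ).map linv)
    (opp0 : ∀ φ, l0 (qo R φ) = l0 φ)
    (two : ∀ x, (∃ φ, (∀ ψ, l0 ψ = some x ↔ ψ = φ ∨ ψ = qo R φ) ∧ ∀ ψ, l1 ψ ≠ some x) ∨
      (∃ φ, (∀ ψ, l1 ψ = some x ↔ ψ = φ) ∧ ∀ ψ, l0 ψ ≠ some x)) :
    ∃ m, Nonempty (Lab S m) := by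
  let E := Finite.equivFin Λ
  let F : Λ × Bool ≃ Fin (Nat.card Λ) × Bool := E.prodCongr (Equiv.refl _)
  have hev : ∀ x : Option (Λ × Bool), ev (fun i => y (E.symm i)) (x.map F) = ev y x := by
    rintro (_ | ⟨i, _ | _⟩) <;> simp [ev, F]
  have hl : ∀ x : Option (Λ × Bool), (x.map linv).map F = (x.map F).map linv := by
    rintro (_ | ⟨i, b⟩) <;> simp [linv, F]
  have hs : ∀ (x : Option (Λ × Bool)) z, x.map F = some z ↔ x = some (F.symm z) := by
    rintro (_ | x) z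
    · simp
    · simp [Equiv.eq_symm_apply]
  refine ⟨Nat.card Λ, ⟨⟨fun i => y (E.symm i), fun φ => (l0 φ).map F, fun φ => (l1 φ).map F,
    fun ξ => ?_, fun ξ => ?_, fun φ => ?_, fun ξ => ?_, fun φ => ?_, fun φ => ?_, fun φ => ?_,
    fun x => ?_⟩⟩⟩
  · rw [hev, ev0, lam0_p, mul_inv_cancel_left]
  · rw [hev, ev1, lam1_p, mul_inv_cancel_left]
  · rw [Option.map_eq_none_iff, none0]
  · rw [Option.map_eq_none_iff, none1, lam1_p, inv_mul_eq_one, eq_comm]
  · rw [inv0, hl]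
  · rw [inv1, hl]
  · rw [opp0]
  · simpa only [hs, ne_eq] using two (F.symm x)

end LAB

open LAB in
theorem stLAB : St_LAB := by
  classical
  intro K _ hK T R S
  obtain ⟨e, he⟩ := Countable.exists_injective_nat (Q R)
  choose f hf using fun i : T.I => exists_ty_sd R i false
  let C : Q R → Prop := fun φ => lam1 S φ ≠ 1 ∧ e φ < e (qn R φ)
  have hC : ∀ φ, C φ → ¬ C (qn R φ) := fun φ h h' => by
    have := h'.2
    rw [qn_qn] at this
    exact lt_asymm h.2 this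
  have hC' : ∀ φ, ¬ C φ → ¬ C (qn R φ) → lam1 S φ = 1 := fun φ h h' => by
    by_contra h1
    rcases lt_trichotomy (e φ) (e (qn R φ)) with l | l | l
    · exact h ⟨h1, l⟩
    · exact qn_ne R hK φ (he l).symm
    · exact h' ⟨by rw [lam1_qn]; simpa using h1, by rwa [qn_qn]⟩
  have hf0 : ∀ φ, sd R φ = false → lam0 S (f (ty R φ)) = lam0 S φ := fun φ h => by
    rcases eq_of_ty_sd R (hf (ty R φ)).1 ((hf (ty R φ)).2.trans h.symm) with e' | e'
    · rw [← e']
    · conv_rhs => rw [e', lam0_qo]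
  refine transfer S (Λ := {i : T.I // i ∉ S.Z} ⊕ {φ : Q R // C φ})
    (Sum.elim (fun i => lam0 S (f i.1)) fun φ => lam1 S φ.1)
    (fun φ => if h : ty R φ ∉ S.Z then some (Sum.inl ⟨_, h⟩, !sd R φ) else none)
    (fun φ => if h : C φ then some (Sum.inr ⟨_, h⟩, true) else
      if h' : C (qn R φ) then some (Sum.inr ⟨_, h'⟩, false) else none)
    (fun φ => ?_) (fun φ => ?_) (fun φ => ?_) (fun φ => ?_) (fun φ => ?_) (fun φ => ?_)
    (fun φ => ?_) fun x => ?_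
  · by_cases h : ty R φ ∈ S.Z
    · simp [h, ev, lam0_Z S h]
    · rw [dif_pos h]
      cases hs : sd R φ
      · exact hf0 φ hs
      · have := hf0 (qr R φ) (by rw [sd_qr, hs]; rfl)
        rw [ty_qr, lam0_qr] at this
        show (lam0 S (f (ty R φ)))⁻¹ = _
        rw [this, inv_inv]
  · by_cases h : C φ
    · rw [dif_pos h]; rfl
    · rw [dif_neg h]
      by_cases h' : C (qn R φ)
      · rw [dif_pos h']
        show (lam1 S (qn R φ))⁻¹ = _
        rw [lam1_qn, inv_inv]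
      · rw [dif_neg h', hC' φ h h']; rfl
  · by_cases h : ty R φ ∈ S.Z <;> simp [h]
  · by_cases h : C φ
    · simpa [h] using h.1
    · by_cases h' : C (qn R φ)
      · have := h'.1
        rw [lam1_qn] at this
        simpa [h, h'] using this
      · simp [h, h', hC' φ h h']
  · by_cases h : ty R φ ∈ S.Z <;> simp [h, linv]
  · by_cases h : C φ
    · simp [h, hC φ h, linv]
    · by_cases h' : C (qn R φ) <;> simp [h, h', linv]
  · simp
  · obtain ⟨i | φ, b⟩ := x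
    · obtain ⟨φ, h1, h2⟩ := exists_ty_sd R i.1 (!b)
      refine Or.inl ⟨φ, fun ψ => ⟨fun h => ?_, ?_⟩, fun ψ h => ?_⟩
      · split_ifs at h with h'
        simp only [Option.some.injEq, Prod.mk.injEq, Sum.inl.injEq] at h
        refine eq_of_ty_sd R (by rw [h1, ← h.1]) (by rw [h2, ← h.2, Bool.not_not])
      · rintro (rfl | rfl)
        · simp [h1, h2, i.2]
        · simp [h1, h2, i.2]
      · split_ifs at h <;> simp at h
    · refine Or.inr ⟨if b then φ.1 else qn R φ.1, fun ψ => ⟨fun h => ?_, ?_⟩, fun ψ h => ?_⟩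
      · split_ifs at h with h1 h2
        · simp only [Option.some.injEq, Prod.mk.injEq, Sum.inr.injEq] at h
          obtain ⟨rfl, rfl⟩ := h
          rfl
        · simp only [Option.some.injEq, Prod.mk.injEq, Sum.inr.injEq] at h
          obtain ⟨rfl, rfl⟩ := h
          simp
      · rintro rfl
        cases b
        · simp [hC _ φ.2, φ.2]
        · simp [φ.2]
      · split_ifs at h
        simp at h

end Pool.Agent.Lib.FBC.RIB
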