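import Pool.Agent.Lib.FBC.RIB.Blue

/-!
Boundary lines of a ribbon tree do not close up.
-/

namespace Pool.Agent.Lib.FBC.RIB

open Forest

theorem stNOCYC : St_NOCYC := by
  intro K _ T R hl ξ n hn
  have key : ∀ j : ℕ, (R.dart ((R.next ^ j) ξ)).1 ∈
      sep (R.dart ((R.next ^ j) ξ)).tgt (R.dart ξ).src ∧
      (sep (R.dart ((R.next ^ j) ξ)).tgt (R.dart ξ).src).card = j + 1 := by
    intro j
    induction j with
    | zero => simp [sep_comm (R.dart ξ).tgt, sep_src_tgt]
    | succ j ih =>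
      rw [pow_succ', Equiv.Perm.mul_apply]
      generalize (R.next ^ j) ξ = ζ at ih ⊢
      have hs := R.src_next ζ
      have h1 : (R.dart (R.next ζ)).1 ∉ sep (R.dart (R.next ζ)).src (R.dart ξ).src := fun h =>
        R.ne_next ζ (First.unique (u := (R.dart ζ).tgt) (v := (R.dart ξ).src)
          ⟨hs, hs ▸ h⟩ ⟨rfl, ih.1⟩)
      have h2 : sep (R.dart (R.next ζ)).tgt (R.dart ξ).src =
          insert (R.dart (R.next ζ)).1 (sep (R.dart (R.next ζ)).src (R.dart ξ).src) :=
        sep_step' ((hl _).trans (hl _).symm) h1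
      refine ⟨by rw [h2]; exact Finset.mem_insert_self _ _, ?_⟩
      rw [h2, Finset.card_insert_of_notMem h1, hs, ih.2]
  rcases n with _ | n
  · rfl
  · have h := (key n).2
    rw [← R.src_next, ← Equiv.Perm.mul_apply, ← pow_succ', hn, sep_self] at h
    simp at h

end Pool.Agent.Lib.FBC.RIB
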