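import Pool.Agent.Lib.FBC.RIB.Blue

/-!
Potentials of cochains on a tree.
-/

namespace Pool.Agent.Lib.FBC.RIB

open Forest

open Classical in
/-- the potential, computed with a given number of steps -/
noncomputable def potF {K : Type} [Group K] {T : Forest (1 : Dg K)} {H : Type} [Group H]
    (ν : T.Dir → H) (x0 : T.V) : ℕ → T.V → H
  | 0, _ => 1
  | n + 1, x => if h : ∃ d, First x x0 d then potF ν x0 n h.choose.tgt * ν h.choose else 1

theorem stPOT : St_POT := by
  intro K _ T hl H _ μ
  by_cases hV : Nonempty T.V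
  swap
  · exact ⟨fun _ => 1, fun c => (hV ⟨c.ed true⟩).elim⟩
  obtain ⟨x0⟩ := hV
  let ν : T.Dir → H := fun d => if d.2 then μ d.1 else (μ d.1)⁻¹
  let Ψ : T.V → H := fun x => potF ν x0 (sep x x0).card x
  have key : ∀ d : T.Dir, First d.src x0 d → Ψ d.src = Ψ d.tgt * ν d := by
    intro d hd
    have h1 : (sep d.src x0).card = (sep d.tgt x0).card + 1 := by
      rw [hd.sep_tgt, Finset.card_erase_of_mem hd.2]
      have := Finset.card_pos.2 ⟨_, hd.2⟩
      omega
    have h2 : ∃ d', First d.src x0 d' := ⟨d, hd⟩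
    have h3 : h2.choose = d := h2.choose_spec.unique hd
    simp only [Ψ]
    rw [h1, potF, dif_pos h2, h3]
  refine ⟨Ψ, fun c => ?_⟩
  by_cases h : c ∈ sep (c.ed true) x0
  · exact key (c, true) ⟨rfl, h⟩
  · have h' : c ∈ sep (c.ed false) x0 := by
      have := sep_step' (c := c) (b := true) ((hl _).trans (hl _).symm) h
      simp only [Bool.not_true] at this
      rw [this]
      exact Finset.mem_insert_self _ _
    have := key (c, false) ⟨rfl, h'⟩
    change Ψ (c.ed false) = Ψ (c.ed true) * (μ c)⁻¹ at this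
    rw [this, inv_mul_cancel_right]

end Pool.Agent.Lib.FBC.RIB
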