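import Pool.Agent.Lib.FBC.RIB.Blue

/-!
The potential on flags.
-/

namespace Pool.Agent.Lib.FBC.RIB

open Forest Relation

variable {K : Type} [Group K] {T : Forest (1 : Dg K)} (R : Ribbon T)

/-- the link of a vertex with nontrivial stabilizer does not close up -/
lemma rho_free (hK : TF K) (hc : R.Conn) {k : K} (hk : k ≠ 1) {ξ : R.Fl}
    (hs : k • src R ξ = src R ξ) {i : ℤ} (h : (rho R ^ i) ξ = ξ) : i = 0 := by
  by_contra hi
  obtain ⟨j, e | e⟩ := link R hc (ξ := ξ) (ζ := k • ξ) (by rw [src_smul, hs])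
  · have : ∀ n : ℕ, (k ^ n) • ξ = (rho R ^ (j * n)) ξ := fun n => by
      induction n with
      | zero => simp
      | succ n ih =>
        rw [pow_succ, mul_smul, e, ← rho_smul, ih, ← Equiv.Perm.mul_apply, ← zpow_add]
        congr 2; push_cast; ring
    refine hk (hK k i.natAbs (by simpa using hi) (free R (ξ := ξ) ?_))
    obtain ⟨c, hc⟩ : i ∣ j * (i.natAbs : ℤ) := Dvd.dvd.mul_left (Int.dvd_natAbs.2 dvd_rfl) _
    rw [this, hc, zpow_mul]
    exact Equiv.Perm.zpow_apply_eq_self_of_apply_eq_self h c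
  · refine hk (hK k 2 two_ne_zero (free R (ξ := ξ) ?_))
    have e2 : k • k • ξ = oP R ((rho R ^ j) (k • ξ)) := by
      rw [rho_smul, oP_smul, ← e]
    rw [sq, mul_smul, e2, e, ← Equiv.Perm.mul_apply (oP R) (rho R ^ j), oP_rho,
      Equiv.Perm.mul_apply, oP_oP, ← Equiv.Perm.mul_apply, ← zpow_add, neg_add_cancel]
    rfl

lemma exists_int_pot {H : Type} [Group H] (g : ℤ → H) :
    ∃ f : ℤ → H, ∀ j, f (j + 1) = f j * g j := by
  let A : ℕ → H := fun n => Nat.rec 1 (fun n a => a * g n) n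
  let B : ℕ → H := fun n => Nat.rec 1 (fun n a => a * (g (Int.negSucc n))⁻¹) n
  refine ⟨fun j => Int.rec A (fun n => B (n + 1)) j, fun j => ?_⟩
  rcases j with n | _ | n
  · rfl
  · change (1 : H) = 1 * (g _)⁻¹ * g _
    rw [inv_mul_cancel_right]
  · change B (n + 1) = B (n + 1) * (g _)⁻¹ * g _
    rw [inv_mul_cancel_right]

/-- the local potential -/
lemma exists_loc_pot (hK : TF K) (hc : R.Conn) {H : Type} [Group H] (ν : R.Fl → H)
    (hn : ∀ ξ, ν (nP R ξ) = (ν ξ)⁻¹)
    (h1 : ∀ ξ, (∀ k : K, k • src R ξ = src R ξ → k = 1) → ν ξ = 1) :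
    ∃ P : R.Fl → H, (∀ ξ, P (oP R ξ) = P ξ) ∧ ∀ ξ, P (nP R ξ) = P ξ * ν ξ := by
  classical
  rcases isEmpty_or_nonempty R.Fl with hE | hE
  · exact ⟨fun _ => 1, fun _ => rfl, fun ξ => hE.elim ξ⟩
  have hb : ∀ ξ, src R (Function.invFun (src R) (src R ξ)) = src R ξ := fun ξ =>
    Function.invFun_eq ⟨ξ, rfl⟩
  generalize Function.invFun (src R) = bs at hb
  choose idx hidx using fun ξ => link R hc (hb ξ)
  choose f hf using fun b : R.Fl => exists_int_pot fun j => ν (oP R ((rho R ^ j) b))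
  have uq : ∀ ξ, (¬ ∀ k : K, k • src R ξ = src R ξ → k = 1) → ∀ j : ℤ,
      (ξ = (rho R ^ j) (bs (src R ξ)) ∨ ξ = oP R ((rho R ^ j) (bs (src R ξ)))) → idx ξ = j := by
    intro ξ h j hj
    push Not at h
    obtain ⟨k, hs, hk⟩ := h
    have key : (rho R ^ idx ξ) (bs (src R ξ)) = (rho R ^ j) (bs (src R ξ)) → idx ξ = j := by
      intro e
      have := rho_free R hK hc hk (ξ := bs (src R ξ)) (by rw [hb, hs]) (i := -j + idx ξ) (by
        rw [zpow_add, Equiv.Perm.mul_apply, e, ← Equiv.Perm.mul_apply, ← zpow_add, neg_add_cancel]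
        rfl)
      omega
    rcases hidx ξ with e | e <;> rcases hj with e' | e'
    · exact key (e.symm.trans e')
    · exact absurd (e'.symm.trans e) (oP_rho_ne R _ _ _)
    · exact absurd (e.symm.trans e') (oP_rho_ne R _ _ _)
    · exact key ((oP R).injective (e.symm.trans e'))
  refine ⟨fun ξ => if ∀ k : K, k • src R ξ = src R ξ → k = 1 then 1 else f (bs (src R ξ)) (idx ξ),
    fun ξ => ?_, fun ξ => ?_⟩
  · simp only [src_oP]
    split_ifs with h
    · rfl
    · rw [uq (oP R ξ) (by rwa [src_oP]) (idx ξ)]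
      rw [src_oP]
      rcases hidx ξ with e | e
      · exact Or.inr (congrArg _ e)
      · exact Or.inl ((congrArg _ e).trans (oP_oP R _))
  · simp only [src_nP]
    split_ifs with h
    · rw [h1 ξ h, mul_one]
    · rcases hidx ξ with e | e
      · have e1 : nP R ξ = oP R ((rho R ^ (idx ξ - 1)) (bs (src R ξ))) :=
          (congrArg _ e).trans (nP_rho R _ _)
        have := hf (bs (src R ξ)) (idx ξ - 1)
        rw [sub_add_cancel, ← e1, hn] at this
        rw [uq (nP R ξ) (by rwa [src_nP]) (idx ξ - 1) (by rw [src_nP]; exact Or.inr e1), this,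
          inv_mul_cancel_right]
      · have e1 : nP R ξ = (rho R ^ (idx ξ + 1)) (bs (src R ξ)) :=
          (congrArg _ e).trans (nP_oP_rho R _ _)
        rw [uq (nP R ξ) (by rwa [src_nP]) (idx ξ + 1) (by rw [src_nP]; exact Or.inl e1), hf, ← e]

theorem stPOTF (hP : St_POT) : St_POTF := by
  intro K _ hK T R hl hc H _ μ ν hr ho hn h1
  obtain ⟨P, Po, Pn⟩ := exists_loc_pot R hK hc ν hn h1
  choose fl hfl using fun c : T.E => R.surj (c, false)
  obtain ⟨Ψ, hΨ⟩ := hP K T hl H fun c => P (fl c) * μ (fl c) * (P (rP R (fl c)))⁻¹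
  have key : ∀ ξ, (R.dart ξ).2 = false →
      Ψ (src R (rP R ξ)) * P (rP R ξ) = Ψ (src R ξ) * P ξ * μ ξ := by
    intro ξ h
    have hd : R.dart ξ = ((R.dart ξ).1, false) := Prod.ext rfl h
    generalize (R.dart ξ).1 = c at hd
    have e : P (fl c) * μ (fl c) * (P (rP R (fl c)))⁻¹ = P ξ * μ ξ * (P (rP R ξ))⁻¹ := by
      rcases R.uniq (fl c) ξ ((hfl c).trans hd.symm) with e | e
      · rw [e]
      · rw [e, ← oP_apply, Po, ho, ← oP_rP, Po]
    have := hΨ c
    rw [e] at this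
    rw [src_rP, src, hd]
    change Ψ (c.ed true) * _ = Ψ (c.ed false) * _ * _
    rw [this]
    group
  refine ⟨fun ξ => Ψ (src R ξ) * P ξ, fun ξ => by simp only [src_oP, Po], fun ξ => ?_,
    fun ξ => by simp only [src_nP, Pn, mul_assoc]⟩
  cases h : (R.dart ξ).2
  · exact key ξ h
  · have := key (rP R ξ) (by rw [dart_rP]; simp [Dir.rv, h])
    rw [rP_rP, hr] at this
    show Ψ (src R (rP R ξ)) * P (rP R ξ) = Ψ (src R ξ) * P ξ * μ ξ
    rw [this, inv_mul_cancel_right]

end Pool.Agent.Lib.FBC.RIB
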