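import Pool.Agent.Lib.FBC.RIB.Blue

/-!
Boundary words of a surface word system are not proper powers up to conjugacy.
-/

namespace Pool.Agent.Lib.FBC.RIB

open Relation

namespace ROOT

lemma count_eq_card {α : Type} [DecidableEq α] (l : List α) (a : α) :
    l.count a = ((Finset.range l.length).filter fun k => l[k]? = some a).card := by
  induction l using List.reverseRecOn with
  | nil => simp
  | append_singleton l x ih =>
    rw [List.count_append, List.length_append, List.length_singleton, Finset.range_add_one,
      Finset.filter_insert]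
    have h1 : ((Finset.range l.length).filter fun k => (l ++ [x])[k]? = some a) =
        ((Finset.range l.length).filter fun k => l[k]? = some a) := by
      apply Finset.filter_congr
      intro k hk
      rw [List.getElem?_append_left (Finset.mem_range.1 hk)]
    rw [h1]
    by_cases h : x = a
    · subst h
      rw [if_pos (by simp), Finset.card_insert_of_notMem (by simp), ih]
      simp
    · rw [if_neg (by simpa using h), ih]
      simp [h]

variable {m b : ℕ} {c : Fin b → List (Fin m × Bool)}

/-- among three occurrences of a letter two coincide -/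
lemma three (h : SurfW c) (a : Fin m) (j j' : Fin b) (k1 k2 k' : ℕ) (hne : k1 ≠ k2)
    (h1 : ((c j).map Prod.fst)[k1]? = some a) (h2 : ((c j).map Prod.fst)[k2]? = some a)
    (h' : ((c j').map Prod.fst)[k']? = some a) : j' = j ∧ (k' = k1 ∨ k' = k2) := by
  have hs := h.2.1 a
  have mem : ∀ (j : Fin b) (k : ℕ), ((c j).map Prod.fst)[k]? = some a →
      k ∈ (Finset.range ((c j).map Prod.fst).length).filter
        fun k => ((c j).map Prod.fst)[k]? = some a := by
    intro j k hk
    refine Finset.mem_filter.2 ⟨Finset.mem_range.2 ?_, hk⟩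
    exact (List.getElem?_eq_some_iff.1 hk).1
  by_cases hj : j' = j
  · subst hj
    refine ⟨rfl, ?_⟩
    by_contra hc
    push Not at hc
    have h3 : 2 < ((c j').map Prod.fst).count a := by
      rw [count_eq_card, Finset.two_lt_card_iff]
      exact ⟨k', k1, k2, mem _ _ h', mem _ _ h1, mem _ _ h2, hc.1, hc.2, hne⟩
    have := Finset.single_le_sum (f := fun j => ((c j).map Prod.fst).count a)
      (fun _ _ => Nat.zero_le _) (Finset.mem_univ j')
    omega
  · exfalso
    have h3 : 1 < ((c j).map Prod.fst).count a := by
      rw [count_eq_card, Finset.one_lt_card]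
      exact ⟨k1, mem _ _ h1, k2, mem _ _ h2, hne⟩
    have h4 : 0 < ((c j').map Prod.fst).count a := by
      rw [count_eq_card, Finset.card_pos]
      exact ⟨k', mem _ _ h'⟩
    have := Finset.add_le_sum (f := fun j => ((c j).map Prod.fst).count a)
      (fun _ _ => Nat.zero_le _) (Finset.mem_univ j') (Finset.mem_univ j) hj
    omega

lemma succ_mod_inj {n k k' : ℕ} (hk : k < n) (hk' : k' < n) (h : (k + 1) % n = (k' + 1) % n) :
    k = k' := by
  have := Nat.ModEq.add_right_cancel' 1 h
  rwa [Nat.ModEq, Nat.mod_eq_of_lt hk, Nat.mod_eq_of_lt hk'] at this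

/-- no cyclic turn cancels -/
lemma no_turn (h : SurfW c) (j : Fin b) (k : ℕ) (hk : k < (c j).length) (k2 : ℕ)
    (hk2 : k2 < (c j).length) (e : k2 = (k + 1) % (c j).length)
    (h1 : (c j)[k].1 = (c j)[k2].1) : (c j)[k].2 = (c j)[k2].2 := by
  by_contra hne
  obtain ⟨x, hx⟩ : ∃ x, x = (c j)[k] := ⟨_, rfl⟩
  have hx2 : (c j)[k2] = (x.1, !x.2) := by
    rw [hx]
    refine Prod.ext h1.symm ?_
    revert hne
    cases (c j)[k].2 <;> cases (c j)[k2].2 <;> simp
  have hkk : k ≠ k2 := by
    rintro rfl
    exact hne rfl
  have o1 : ((c j).map Prod.fst)[k]? = some x.1 := by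
    rw [List.getElem?_map, List.getElem?_eq_getElem hk, hx]; rfl
  have o2 : ((c j).map Prod.fst)[k2]? = some x.1 := by
    rw [List.getElem?_map, List.getElem?_eq_getElem hk2, hx2]; rfl
  have step : ∀ y z, Wh c y z → (y = x ↔ z = x) := by
    rintro y z ⟨j', k', hk', e1, e2⟩
    constructor
    · rintro rfl
      have o3 : ((c j').map Prod.fst)[k']? = some y.1 := by
        rw [List.getElem?_map, List.getElem?_eq_getElem hk', e1]; rfl
      obtain ⟨rfl, rfl | rfl⟩ := three h y.1 j j' k k2 k' hkk o1 o2 o3
      · subst e
        rw [hx2] at e2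
        have a1 := congrArg Prod.fst e2
        have a2 := congrArg Prod.snd e2
        refine Prod.ext a1.symm ?_
        simpa using a2.symm
      · rw [hx2] at e1
        simpa using congrArg Prod.snd e1
    · rintro rfl
      have o3 : ((c j').map Prod.fst)[(k' + 1) % (c j').length]? = some z.1 := by
        rw [List.getElem?_map, List.getElem?_eq_getElem (Nat.mod_lt _ (by omega)), e2]; rfl
      obtain ⟨rfl, e3 | e3⟩ := three h z.1 j j' k k2 _ hkk o1 o2 o3
      · exfalso
        simp only [e3] at e2
        rw [← hx] at e2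
        simpa using congrArg Prod.snd e2
      · have : k' = k := succ_mod_inj hk' hk (e3.trans e)
        subst this
        rw [← e1, hx]
  have all : ∀ y z, EqvGen (Wh c) y z → (y = x ↔ z = x) := by
    intro y z hyz
    induction hyz with
    | rel y z h => exact step y z h
    | refl => rfl
    | symm _ _ _ ih => exact ih.symm
    | trans _ _ _ _ _ ih1 ih2 => exact ih1.trans ih2
  exact linv_ne x ((all x (linv x) (h.2.2 _ _)).1 rfl)

lemma cyc_red (h : SurfW c) (j : Fin b) : FreeGroup.IsCyclicallyReduced (c j) := by
  refine ⟨?_, ?_⟩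
  · rw [FreeGroup.IsReduced, List.isChain_iff_getElem]
    intro k hk
    exact no_turn h j k (by omega) (k + 1) hk (Nat.mod_eq_of_lt hk).symm
  · intro x hx y hy
    have hp : 0 < (c j).length := List.length_pos_iff.2 (h.1 j)
    rw [Option.mem_def, List.getLast?_eq_getElem?,
      List.getElem?_eq_getElem (by omega), Option.some.injEq] at hx
    rw [Option.mem_def, List.head?_eq_getElem?, List.getElem?_eq_getElem hp,
      Option.some.injEq] at hy
    rw [← hx, ← hy]
    refine no_turn h j _ (by omega) 0 hp ?_
    rw [Nat.sub_add_cancel hp, Nat.mod_self]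

/-- the number of occurrences of a letter in the reduced word -/
def N (a : Fin m) (g : FreeGroup (Fin m)) : ℕ := (g.toWord.map Prod.fst).count a

lemma N_mul (a : Fin m) (g g' : FreeGroup (Fin m)) : N a (g * g') ≤ N a g + N a g' := by
  unfold N
  rw [← List.count_append, ← List.map_append]
  exact ((FreeGroup.toWord_mul_sublist g g').map _).count_le a

lemma N_inv (a : Fin m) (g : FreeGroup (Fin m)) : N a g⁻¹ = N a g := by
  unfold N
  rw [FreeGroup.toWord_inv, FreeGroup.invRev, List.map_reverse, List.count_reverse, List.map_map]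
  rfl

lemma N_pow (a : Fin m) {l : List (Fin m × Bool)} (hl : FreeGroup.IsCyclicallyReduced l) (M : ℕ) :
    N a (FreeGroup.mk l ^ M) = M * (l.map Prod.fst).count a := by
  unfold N
  rw [FreeGroup.toWord_pow, FreeGroup.toWord_mk, hl.isReduced.reduce_eq,
    (hl.flatten_replicate M).isReduced.reduce_eq]
  induction M with
  | zero => simp
  | succ M ih =>
    rw [List.replicate_succ, List.flatten_cons, List.map_append, List.count_append, ih]
    ring

lemma N_zpow (a : Fin m) {l : List (Fin m × Bool)} (hl : FreeGroup.IsCyclicallyReduced l)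
    (M : ℤ) : N a (FreeGroup.mk l ^ M) = M.natAbs * (l.map Prod.fst).count a := by
  obtain ⟨n, rfl | rfl⟩ := Int.eq_nat_or_neg M
  · rw [zpow_natCast, N_pow a hl, Int.natAbs_natCast]
  · rw [zpow_neg, N_inv, zpow_natCast, N_pow a hl, Int.natAbs_neg, Int.natAbs_natCast]

end ROOT

open ROOT in
theorem stROOT : St_ROOT := by
  intro m b c h i j w n e
  have hi := cyc_red h i
  have hj := cyc_red h j
  have key : ∀ a : Fin m,
      n.natAbs * ((c i).map Prod.fst).count a ≤ ((c j).map Prod.fst).count a := by
    intro a
    have hM : ∀ M : ℕ, M * (n.natAbs * ((c i).map Prod.fst).count a) ≤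
        M * ((c j).map Prod.fst).count a + 2 * N a w := by
      intro M
      have e1 : FreeGroup.mk (c i) ^ (n * M) = w⁻¹ * FreeGroup.mk (c j) ^ M * w := by
        rw [e, conj_pow, zpow_mul, zpow_natCast]
        group
      have e2 := N_zpow a hi (n * M)
      rw [e1, Int.natAbs_mul, Int.natAbs_natCast] at e2
      have l1 := N_mul a (w⁻¹ * FreeGroup.mk (c j) ^ M) w
      have l2 := N_mul a w⁻¹ (FreeGroup.mk (c j) ^ M)
      rw [N_inv, N_pow a hj] at l2
      have : M * (n.natAbs * ((c i).map Prod.fst).count a) =
          n.natAbs * M * ((c i).map Prod.fst).count a := by ring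
      omega
    by_contra hc
    push Not at hc
    have := hM (2 * N a w + 1)
    nlinarith
  have hn0 : n ≠ 0 := by
    rintro rfl
    have e1 : FreeGroup.mk (c j) = 1 := by simpa using e
    have := congrArg FreeGroup.toWord e1
    rw [FreeGroup.toWord_mk, hj.isReduced.reduce_eq, FreeGroup.toWord_one] at this
    exact h.1 j this
  obtain ⟨x, hx⟩ := List.exists_mem_of_ne_nil _ (h.1 i)
  have hpos : 0 < ((c i).map Prod.fst).count x.1 :=
    List.count_pos_iff.2 (List.mem_map_of_mem hx)
  have hk := key x.1
  have hle : n.natAbs ≤ 1 := by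
    by_contra hc
    have h2 : 2 * ((c i).map Prod.fst).count x.1 ≤ n.natAbs * ((c i).map Prod.fst).count x.1 :=
      Nat.mul_le_mul_right _ (by omega)
    by_cases hij : i = j
    · subst hij
      omega
    · have := Finset.add_le_sum (f := fun j => ((c j).map Prod.fst).count x.1)
        (fun _ _ => Nat.zero_le _) (Finset.mem_univ i) (Finset.mem_univ j) hij
      have hs := h.2.1 x.1
      omega
  omega

end Pool.Agent.Lib.FBC.RIB
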