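import Pool.Agent.Lib.FBC.RIB.Blue

/-!
Existence of an equivariant section of the flags whose fibre is a disc.
-/

namespace Pool.Agent.Lib.FBC.RIB

open Forest Relation

namespace SEC

variable {K : Type} [Group K] {T : Forest (1 : Dg K)} (R : Ribbon T)

/-- A finite set with an involution without fixed points has even size. -/
lemma even_card {X : Type} (C : Finset X) (f : X → X) (h2 : ∀ x, f (f x) = x)
    (hne : ∀ x, f x ≠ x) (hC : ∀ x ∈ C, f x ∈ C) : (C.card : ZMod 2) = 0 := by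
  have := Finset.sum_involution (s := C) (f := fun _ => (1 : ZMod 2)) (fun x _ => f x)
    (fun _ _ => by decide) (fun x _ _ => hne x) (fun x hx => hC x hx) (fun x _ => h2 x)
  simpa using this

lemma emono {X : Type} {r s : X → X → Prop} (h : ∀ a b, r a b → s a b) {a b : X}
    (e : EqvGen r a b) : EqvGen s a b := EqvGen.mono h a b e

/-- equivariant positions that do not change along a dart -/
def Pos (π : R.Fl → K) : Prop :=
  (∀ (k : K) ξ, π (k • ξ) = k * π ξ) ∧ ∀ ξ, π (oP R ξ) = π ξ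

/-- the turn at a class of flags is trivial -/
def Tr (π : R.Fl → K) (φ : Q R) : Prop := ∀ x, p R x = φ → π (nP R x) = π x

lemma tr_p {π : R.Fl → K} (h : Pos R π) {x : R.Fl} (e : π (nP R x) = π x) : Tr R π (p R x) := by
  intro y hy
  obtain ⟨k, rfl⟩ := (p_eq R).1 hy
  rw [nP_smul, h.1, h.1, e]

open Classical in
/-- modification of a position on a set of classes -/
noncomputable def md (π : R.Fl → K) (A : Set (Q R)) (g : K) (x : R.Fl) : K :=
  if p R x ∈ A then π x * g else π x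

lemma md_eq {π : R.Fl → K} {A : Set (Q R)} {g : K} {x y : R.Fl} (h : p R x ∈ A ↔ p R y ∈ A) :
    md R π A g x = md R π A g y ↔ π x = π y := by
  by_cases e : p R y ∈ A
  · simp [md, e, h.2 e]
  · simp [md, e, mt h.1 e]

lemma md_pos {π : R.Fl → K} (h : Pos R π) {A : Set (Q R)} (g : K)
    (hA : ∀ φ ∈ A, qo R φ ∈ A) : Pos R (md R π A g) := by
  refine ⟨fun k ξ => ?_, fun ξ => (md_eq R ⟨fun e => ?_, hA _⟩).2 (h.2 ξ)⟩
  · by_cases e : p R ξ ∈ A <;> simp [md, e, h.1, mul_assoc]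
  · simpa using hA (qo R (p R ξ)) e

lemma md_fix {π : R.Fl → K} {A : Set (Q R)} {x y : R.Fl} (hx : p R x ∉ A) (hy : p R y ∈ A) :
    md R π A ((π y)⁻¹ * π x) y = md R π A ((π y)⁻¹ * π x) x := by
  simp [md, hx, hy]

/-- moves inside a link along trivial turns -/
def N2 (π : R.Fl → K) (a b : Q R) : Prop := b = qo R a ∨ (b = qn R a ∧ Tr R π a)

/-- trivial turns connect every link in the quotient -/
def NN (π : R.Fl → K) : Prop := ∀ φ, EqvGen (N2 R π) φ (qn R φ)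

lemma stage1 : ∃ π : R.Fl → K, Pos R π ∧ NN R π := by
  have h0 : Pos R fun x => (R.dart x).1.g :=
    ⟨fun k ξ => by simp only [R.dart_smul]; rfl, fun ξ => by simp only [dart_oP]⟩
  obtain ⟨S, ⟨π, hπ, rfl⟩, hS⟩ := (Set.toFinite {S : Set (Q R) | ∃ π, Pos R π ∧
    S = {φ | Tr R π φ}}).exists_maximal ⟨_, _, h0, rfl⟩
  refine ⟨π, hπ, fun φ => by_contra fun hn => ?_⟩
  obtain ⟨x, rfl⟩ := p_surj R φ
  set A : Set (Q R) := {ψ | EqvGen (N2 R π) ψ (qn R (p R x))}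
  have hA : ∀ a b, N2 R π a b → (a ∈ A ↔ b ∈ A) := fun a b hab =>
    ⟨fun e => .trans _ _ _ (.symm _ _ (.rel _ _ hab)) e, fun e => .trans _ _ _ (.rel _ _ hab) e⟩
  have hp := md_pos R hπ ((π (nP R x))⁻¹ * π x) fun φ e => (hA _ _ (Or.inl rfl)).1 e
  have hle : {φ | Tr R π φ} ≤ {φ | Tr R (md R π A ((π (nP R x))⁻¹ * π x)) φ} := by
    rintro _ hψ y rfl
    exact (md_eq R (hA _ _ (Or.inr ⟨rfl, hψ⟩)).symm).2 (hψ y rfl)
  have : Tr R π (p R x) := hS ⟨_, hp, rfl⟩ hle (tr_p R hp (md_fix R hn (.refl _)))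
  exact hn (.rel _ _ (Or.inr ⟨rfl, this⟩))

/-- moves along the boundary of the disc -/
def LM (Z : Set T.I) (x y : Q R) : Prop :=
  y = qn R x ∨ (ty R x ∈ Z ∧ y = qr R x) ∨ (ty R x ∉ Z ∧ y = qo R x)

/-- the moves that avoid one edge orbit -/
def MM (Z : Set T.I) (i : T.I) (x y : Q R) : Prop :=
  y = qn R x ∨ (ty R x ≠ i ∧ ((ty R x ∈ Z ∧ y = qr R x) ∨ (ty R x ∉ Z ∧ y = qo R x)))

lemma parity (hK : TF K) {Z : Set T.I} (hL : ∀ φ, EqvGen (LM R Z) φ (qo R φ)) {φ : Q R}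
    (hn : ¬ EqvGen (LM R Z) φ (qr R φ)) : EqvGen (MM R Z (ty R φ)) φ (qo R φ) := by
  classical
  by_contra hm
  have sub : ∀ a b, EqvGen (MM R Z (ty R φ)) a b → EqvGen (LM R Z) a b := fun a b =>
    emono fun x y h => h.imp_right fun h => h.2
  set C := (Set.toFinite {ψ | EqvGen (MM R Z (ty R φ)) φ ψ}).toFinset
  have hC : ∀ ψ, ψ ∈ C ↔ EqvGen (MM R Z (ty R φ)) φ ψ := fun ψ => by simp [C]
  have uq : ∀ ψ ∈ C, ψ ≠ φ → ty R ψ ≠ ty R φ := fun ψ hψ hne e => by
    rw [hC] at hψ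
    rcases eq_of_ty R e.symm with rfl | rfl | rfl | rfl
    · exact hne rfl
    · exact hm hψ
    · exact hn (sub _ _ hψ)
    · exact hn (.trans _ _ _ (sub _ _ hψ) (.symm _ _ (hL _)))
  have e1 := even_card C (qn R) (qn_qn R) (qn_ne R hK) fun x hx =>
    (hC _).2 (.trans _ _ _ ((hC _).1 hx) (.rel _ _ (Or.inl rfl)))
  have e2 := even_card (C.erase φ) (fun x => if ty R x ∈ Z then qr R x else qo R x)
    (fun x => by by_cases e : ty R x ∈ Z <;> simp [e])
    (fun x => by by_cases e : ty R x ∈ Z <;> simp [e, qr_ne, qo_ne]) fun x hx => by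
      obtain ⟨h1, h2⟩ := Finset.mem_erase.1 hx
      have h3 := uq x h2 h1
      refine Finset.mem_erase.2 ⟨fun e => h3 ?_, (hC _).2 (.trans _ _ _ ((hC _).1 h2)
        (.rel _ _ (Or.inr ⟨h3, ?_⟩)))⟩
      · rw [← e]; by_cases e : ty R x ∈ Z <;> simp [e]
      · by_cases e : ty R x ∈ Z <;> simp [e]
  rw [← Finset.card_erase_add_one ((hC φ).2 (.refl _)), Nat.cast_add, e2] at e1
  exact absurd e1 (by decide)

/-- the invariants of the second stage -/
def Good (Z : Set T.I) (π : R.Fl → K) : Prop :=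
  Pos R π ∧ NN R π ∧ (∀ ξ, ty R (p R ξ) ∈ Z → π (rP R ξ) = π ξ) ∧
    ∀ φ, EqvGen (LM R Z) φ (qo R φ)

lemma grow (hK : TF K) {Z : Set T.I} {π : R.Fl → K} (h : Good R Z π) {φ : Q R}
    (hn : ¬ EqvGen (LM R Z) φ (qr R φ)) : ∃ π', Good R (insert (ty R φ) Z) π' := by
  obtain ⟨hπ, hN, hr, hL⟩ := h
  obtain ⟨x, rfl⟩ := p_surj R φ
  have hi : ty R (p R x) ∉ Z := fun e => hn (.rel _ _ (Or.inr (Or.inl ⟨e, rfl⟩)))
  set A : Set (Q R) := {ψ | EqvGen (LM R Z) ψ (qr R (p R x))}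
  have hA : ∀ a b, EqvGen (LM R Z) a b → (a ∈ A ↔ b ∈ A) := fun a b hab =>
    ⟨fun e => .trans _ _ _ (.symm _ _ hab) e, fun e => .trans _ _ _ hab e⟩
  have hp := md_pos R hπ ((π (rP R x))⁻¹ * π x) fun φ e => (hA _ _ (hL φ)).1 e
  have htr : ∀ a, Tr R π a → Tr R (md R π A ((π (rP R x))⁻¹ * π x)) a := by
    rintro _ ha y rfl
    exact (md_eq R (hA (p R y) _ (.rel _ _ (Or.inl rfl))).symm).2 (ha y rfl)
  refine ⟨_, hp, fun ψ => emono (fun a b hab => Or.imp_right (And.imp_right (htr a)) hab)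
    (hN ψ), fun ξ hξ => ?_, fun ψ => ?_⟩
  · rcases hξ with hξ | hξ
    · have e0 := md_fix R (π := π) (A := A) (x := x) (y := rP R x) hn (.refl _)
      generalize md R π A ((π (rP R x))⁻¹ * π x) = π' at hp e0
      have key : ∀ y z, π' (rP R y) = π' y → p R z = p R y → π' (rP R z) = π' z := by
        intro y z e hz
        obtain ⟨k, rfl⟩ := (p_eq R).1 hz
        rw [rP_smul, hp.1, hp.1, e]
      have ko : ∀ y, π' (rP R y) = π' y → π' (rP R (oP R y)) = π' (oP R y) := fun y e => by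
        rw [← oP_rP, hp.2, hp.2, e]
      have kr : π' (rP R (rP R x)) = π' (rP R x) := by rw [rP_rP, e0]
      rcases eq_of_ty R hξ.symm with e | e | e | e
      exacts [key _ _ e0 e, key _ _ (ko _ e0) e, key _ _ kr e, key _ _ (ko _ kr) e]
    · exact (md_eq R (hA _ _ (.rel _ _ (Or.inr (Or.inl ⟨hξ, rfl⟩)))).symm).2 (hr ξ hξ)
  · have sub : ∀ a b, EqvGen (MM R Z (ty R (p R x))) a b →
        EqvGen (LM R (insert (ty R (p R x)) Z)) a b := fun a b =>
      emono fun a b h => h.imp_right fun h => h.2.imp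
        (fun e => ⟨Or.inr e.1, e.2⟩) fun e => ⟨fun e' => e'.elim h.1 e.1, e.2⟩
    have o1 : ∀ a, ty R a = ty R (p R x) → EqvGen (MM R Z (ty R (p R x))) a (qo R a) := by
      have a1 := parity R hK hL hn
      have a2 := parity R hK hL (φ := qr R (p R x)) fun e => hn (.symm _ _ (by simpa using e))
      rw [ty_qr] at a2
      intro a ha
      rcases eq_of_ty R ha.symm with rfl | rfl | rfl | rfl
      exacts [a1, by simpa using a1.symm, a2, by simpa using a2.symm]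
    have tot : ∀ a b, EqvGen (LM R Z) a b → EqvGen (MM R Z (ty R (p R x))) a b := by
      intro a b hab
      induction hab with
      | rel a b h =>
        rcases h with h | h | h
        · exact .rel _ _ (Or.inl h)
        · exact .rel _ _ (Or.inr ⟨fun e => hi (e ▸ h.1), Or.inl h⟩)
        · by_cases e : ty R a = ty R (p R x)
          · exact h.2 ▸ o1 a e
          · exact .rel _ _ (Or.inr ⟨e, Or.inr h⟩)
      | refl => exact .refl _
      | symm _ _ _ ih => exact .symm _ _ ih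
      | trans _ _ _ _ _ i1 i2 => exact .trans _ _ _ i1 i2
    exact sub _ _ (tot _ _ (hL ψ))

lemma stage2 (hK : TF K) : ∃ (Z : Set T.I) (π : R.Fl → K), Good R Z π ∧
    ∀ φ, EqvGen (LM R Z) φ (qr R φ) := by
  obtain ⟨π0, h1, h2⟩ := stage1 R
  have h0 : Good R ∅ π0 :=
    ⟨h1, h2, fun _ h => h.elim, fun φ => .rel _ _ (Or.inr (Or.inr ⟨id, rfl⟩))⟩
  obtain ⟨Z, ⟨π, hπ⟩, hZ⟩ := (Set.toFinite {Z : Set T.I | ∃ π, Good R Z π}).exists_maximal
    ⟨_, _, h0⟩
  refine ⟨Z, π, hπ, fun φ => by_contra fun hn => ?_⟩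
  have : ty R φ ∈ Z := hZ (grow R hK hπ hn) (Set.subset_insert _ _) (Set.mem_insert _ _)
  exact hn (.rel _ _ (Or.inr (Or.inl ⟨this, rfl⟩)))

/-- lifting of chains of moves from the quotient -/
lemma lift {F : R.Fl → R.Fl → Prop} (hF : ∀ (k : K) x y, F x y → F (k • x) (k • y))
    {G : Q R → Q R → Prop} (hG : ∀ x b, G (p R x) b → ∃ y, p R y = b ∧ EqvGen F x y)
    {a b : Q R} (h : EqvGen G a b) : ∀ x y, p R x = a → p R y = b →
      ∃ k : K, EqvGen F x (k • y) := by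
  have tr : ∀ (k : K) x y, EqvGen F x y → EqvGen F (k • x) (k • y) := fun k x y h => by
    induction h with
    | rel a b h => exact .rel _ _ (hF k a b h)
    | refl => exact .refl _
    | symm _ _ _ ih => exact .symm _ _ ih
    | trans _ _ _ _ _ i1 i2 => exact .trans _ _ _ i1 i2
  induction h with
  | rel a b h =>
    rintro x y rfl rfl
    obtain ⟨z, e, hz⟩ := hG x _ h
    obtain ⟨k, rfl⟩ := (p_eq R).1 e
    exact ⟨k, hz⟩
  | refl =>
    rintro x y rfl e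
    obtain ⟨k, rfl⟩ := (p_eq R).1 e.symm
    exact ⟨k, .refl _⟩
  | symm _ _ _ ih =>
    intro x y hx hy
    obtain ⟨k, hk⟩ := ih y x hy hx
    exact ⟨k⁻¹, by simpa using (tr k⁻¹ _ _ hk).symm⟩
  | trans a b c _ _ i1 i2 =>
    intro x y hx hy
    obtain ⟨z, hz⟩ := p_surj R b
    obtain ⟨k, hk⟩ := i1 x z hx hz
    obtain ⟨k', hk'⟩ := i2 z y hz hy
    exact ⟨k * k', .trans _ _ _ hk (by rw [mul_smul]; exact tr k _ _ hk')⟩

/-- a function that is constant along moves is constant along chains -/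
lemma const {X α : Type} {F : X → X → Prop} (f : X → α) (h : ∀ x y, F x y → f x = f y)
    {x y : X} (e : EqvGen F x y) : f x = f y := by
  induction e with
  | rel a b e => exact h a b e
  | refl => rfl
  | symm _ _ _ ih => exact ih.symm
  | trans _ _ _ _ _ i1 i2 => exact i1.trans i2

lemma lift2 {π : R.Fl → K} (hπ : Pos R π) {x y : R.Fl} (h : EqvGen (N2 R π) (p R x) (p R y)) :
    ∃ k : K, EqvGen (fun x y => y = oP R x ∨ (y = nP R x ∧ π y = π x)) x (k • y) := by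
  refine lift R (fun k x y h => ?_) (fun x b h => ?_) h x y rfl rfl
  · rcases h with rfl | ⟨rfl, h⟩
    · exact Or.inl (oP_smul R _ _).symm
    · exact Or.inr ⟨(nP_smul R _ _).symm, by rw [hπ.1, hπ.1, h]⟩
  · rcases h with rfl | ⟨rfl, h⟩
    · exact ⟨_, rfl, .rel _ _ (Or.inl rfl)⟩
    · exact ⟨_, rfl, .rel _ _ (Or.inr ⟨rfl, h x rfl⟩)⟩

end SEC

open SEC in
theorem stSEC : St_SEC := by
  intro K _ hK T R hl hc
  obtain ⟨Z, π, ⟨hπ, hN, hr, hL⟩, hq⟩ := stage2 R hK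
  have tot : ∀ φ ψ : Q R, EqvGen (LM R Z) φ ψ := fun φ ψ => by
    obtain ⟨ξ, rfl⟩ := p_surj R φ
    obtain ⟨ζ, rfl⟩ := p_surj R ψ
    exact fl_ind R hl hc (P := fun z => EqvGen (LM R Z) (p R ξ) (p R z)) (.refl _)
      (fun x h => .trans _ _ _ h (hq _)) (fun x h => .trans _ _ _ h (hL _))
      (fun x h => .trans _ _ _ h (.rel _ _ (Or.inl rfl))) ζ
  refine ⟨⟨π, Z, hπ.1, hπ.2, hr, fun ξ ζ e => ?_, fun ξ ζ e => ?_, tot⟩⟩
  · obtain ⟨k, hk⟩ := lift2 R hπ (link_ind R hc (P := fun z => EqvGen (N2 R π) (p R ξ) (p R z))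
      (.refl _) (fun x _ h => .trans _ _ _ h (.rel _ _ (Or.inl rfl)))
      (fun x _ h => .trans _ _ _ h (hN _)) e)
    have e1 := const (src R) (by rintro x y (rfl | ⟨rfl, _⟩) <;> simp) hk
    have e2 := const π (by rintro x y (rfl | ⟨rfl, h⟩); exacts [(hπ.2 x).symm, h.symm]) hk
    rw [src_smul, ← e] at e1
    exact ⟨k⁻¹, by rw [inv_smul_eq_iff, ← e1], by rw [e2, hπ.1, inv_mul_cancel_left]⟩
  · have : ∃ k : K, EqvGen (fun x y => y = oP R x ∨ (y = nP R x ∧ π y = π x) ∨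
        (y = rP R x ∧ ty R (p R x) ∈ Z)) ξ (k • ζ) := by
      refine lift R (fun k x y h => ?_) (fun x b h => ?_) (tot _ _) ξ ζ rfl rfl
      · rcases h with rfl | ⟨rfl, h⟩ | ⟨rfl, h⟩
        · exact Or.inl (oP_smul R _ _).symm
        · exact Or.inr (Or.inl ⟨(nP_smul R _ _).symm, by rw [hπ.1, hπ.1, h]⟩)
        · exact Or.inr (Or.inr ⟨(rP_smul R _ _).symm, by rwa [p_smul]⟩)
      · rcases h with rfl | ⟨h, rfl⟩ | ⟨h, rfl⟩
        · obtain ⟨k, hk⟩ := lift2 R hπ (y := nP R x) (hN (p R x))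
          exact ⟨k • nP R x, p_smul R _ _, emono (fun a b h => h.imp_right Or.inl) hk⟩
        · exact ⟨_, rfl, .rel _ _ (Or.inr (Or.inr ⟨rfl, h⟩))⟩
        · exact ⟨_, rfl, .rel _ _ (Or.inl rfl)⟩
    obtain ⟨k, hk⟩ := this
    have e2 := const π (by
      rintro x y (rfl | ⟨rfl, h⟩ | ⟨rfl, h⟩)
      exacts [(hπ.2 x).symm, h.symm, (hr x h).symm]) hk
    rw [hπ.1, e] at e2
    obtain rfl : k = 1 := by simpa using e2.symm
    simpa using hk

end Pool.Agent.Lib.FBC.RIB
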