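import Pool.Agent.Lib.FBC.RIB.Blue

/-!
The Whitehead graph of the chosen boundary words is connected.
-/

namespace Pool.Agent.Lib.FBC.RIB

open Equiv Relation

namespace WH

variable {Ω Λ : Type} (s : Perm Ω) (lab : Ω → Option Λ)

lemma W_succ (a : Ω) (n : ℕ) : W s lab a (n + 1) = (lab a).toList ++ W s lab (s a) n := by
  unfold W
  rw [List.range_succ_eq_map, List.filterMap_cons, List.filterMap_map]
  have : ((fun i => lab ((s ^ i) a)) ∘ Nat.succ) = fun i => lab ((s ^ i) (s a)) := by
    funext i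
    simp [pow_succ]
  rw [this]
  simp only [pow_zero, Perm.one_apply]
  cases lab a <;> simp

lemma W_add (i n : ℕ) : ∀ a : Ω, W s lab a (i + n) = W s lab a i ++ W s lab ((s ^ i) a) n := by
  induction i with
  | zero => intro a; simp [W]
  | succ i ih =>
    intro a
    rw [show i + 1 + n = (i + n) + 1 by omega, W_succ, W_succ, ih, List.append_assoc, pow_succ,
      Perm.mul_apply]

lemma exists_f (cyc : ∀ a, ∃ j : ℕ, lab ((s ^ j) a) ≠ none) :
    ∃ f : Ω → Λ, (∀ a z, lab a = some z → f a = z) ∧ ∀ a, lab a = none → f a = f (s a) := by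
  classical
  have hs : ∀ a, (lab ((s ^ Nat.find (cyc a)) a)).isSome := fun a =>
    Option.isSome_iff_ne_none.2 (Nat.find_spec (cyc a))
  refine ⟨fun a => (lab ((s ^ Nat.find (cyc a)) a)).get (hs a), fun a z h => ?_, fun a h => ?_⟩
  · have : Nat.find (cyc a) = 0 := (Nat.find_eq_zero _).2 (by simp [h])
    simp [this, h]
  · have : Nat.find (cyc a) = Nat.find (cyc (s a)) + 1 := by
      rw [Nat.find_eq_iff]
      refine ⟨by simpa [pow_succ] using Nat.find_spec (cyc (s a)), fun n hn => ?_⟩
      rcases n with _ | n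
      · simp [h]
      · simpa [pow_succ] using Nat.find_min (cyc (s a)) (show n < _ by omega)
    simp [this, pow_succ]

variable {s lab} {f : Ω → Λ} (f1 : ∀ a z, lab a = some z → f a = z)
  (f0 : ∀ a, lab a = none → f a = f (s a))

include f1 f0 in
lemma f_cons (n : ℕ) : ∀ (a : Ω) (z : Λ) (l : List Λ), W s lab a n = z :: l → f a = z := by
  induction n with
  | zero => intro a z l h; simp [W] at h
  | succ n ih =>
    intro a z l h
    rw [W_succ] at h
    rcases e : lab a with _ | x
    · rw [f0 a e]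
      exact ih _ z l (by simpa [e] using h)
    · rw [f1 a x e]
      rw [e] at h
      exact (List.cons.inj h).1

include f0 in
lemma f_nil (n : ℕ) : ∀ a : Ω, W s lab a n = [] → f a = f ((s ^ n) a) := by
  induction n with
  | zero => intro a _; simp
  | succ n ih =>
    intro a h
    rw [W_succ] at h
    rcases e : lab a with _ | x
    · rw [f0 a e, pow_succ, Perm.mul_apply]
      exact ih _ (by simpa [e] using h)
    · simp [e] at h

include f1 f0 in
lemma key {ω : Ω} {q i : ℕ} (per : (s ^ q) ω = ω) (hi : i < q) {x : Λ}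
    (hx : lab ((s ^ i) ω) = some x) :
    ∃ (k : ℕ) (h : k < (W s lab ω q).length), (W s lab ω q)[k] = x ∧
      (W s lab ω q)[(k + 1) % (W s lab ω q).length]'(Nat.mod_lt _ (by omega)) =
        f (s ((s ^ i) ω)) := by
  obtain ⟨n, rfl⟩ : ∃ n, q = i + (n + 1) := ⟨q - i - 1, by omega⟩
  have e : W s lab ω (i + (n + 1)) = W s lab ω i ++ x :: W s lab (s ((s ^ i) ω)) n := by
    rw [W_add, W_succ, hx]; rfl
  have gen : ∀ (L L1 L2 : List Λ) (y : Λ), L = L1 ++ x :: L2 →
      (∀ z l, L2 = z :: l → z = y) → (L2 = [] → ∀ z l, L = z :: l → z = y) →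
      ∃ (k : ℕ) (h : k < L.length), L[k] = x ∧
        L[(k + 1) % L.length]'(Nat.mod_lt _ (by omega)) = y := by
    rintro L L1 L2 y rfl h1 h2
    refine ⟨L1.length, by simp, by simp, ?_⟩
    rcases L2 with _ | ⟨z, l⟩
    · have : (L1.length + 1) % (L1 ++ [x]).length = 0 := by simp
      simp only [this]
      rcases L1 with _ | ⟨w, l⟩
      · exact h2 rfl x [] rfl
      · exact h2 rfl w (l ++ [x]) rfl
    · have : (L1.length + 1) % (L1 ++ x :: z :: l).length = L1.length + 1 :=
        Nat.mod_eq_of_lt (by simp)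
      simp only [this]
      rw [← h1 z l rfl]
      simp
  refine gen _ _ _ _ e (fun z l h => (f_cons f1 f0 n _ z l h).symm) fun h z l h' => ?_
  rw [← f_cons f1 f0 _ _ z l h', f_nil f0 n _ h, ← Perm.mul_apply (s ^ n) s, ← pow_succ,
    ← Perm.mul_apply, ← pow_add, add_comm (n + 1) i, per]

end WH

open WH

theorem stWH : St_WH := by
  intro Ω m τ ι lab h b ω q hc
  set s := τ * ι with hs
  set E := EqvGen (Wh fun j => W s lab (ω j) (q j)) with hE
  obtain ⟨f, f1, f0⟩ := exists_f s lab h.cyc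
  have ii : ∀ x, ι (ι x) = x := fun x => by rw [← Perm.mul_apply, h.ι2]; rfl
  have tt : ∀ x, τ (τ x) = x := fun x => by rw [← Perm.mul_apply, h.τ2]; rfl
  have si : ∀ a, s (ι a) = τ a := fun a => by rw [hs, Perm.mul_apply, ii]
  let B : Ω → Prop := fun a => ∃ j i, i < q j ∧ a = (s ^ i) (ω j)
  have Bs : ∀ a, B (s a) → B a := by
    rintro a ⟨j, i, hi, e⟩
    rcases i with _ | i
    · obtain ⟨n, hn⟩ : ∃ n, q j = n + 1 := ⟨q j - 1, by have := hc.pos j; omega⟩
      refine ⟨j, n, by omega, s.injective ?_⟩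
      rw [e, ← Perm.mul_apply, ← pow_succ', ← hn, hc.per]; rfl
    · exact ⟨j, i, by omega, s.injective (by rw [e, ← Perm.mul_apply, ← pow_succ'])⟩
  let H : Ω → Prop := fun a => E (linv (f (τ a))) (linv (f a))
  have H1 : ∀ a, ¬ B a → lab a ≠ none → H a := by
    intro a ha hl
    obtain ⟨x, hx⟩ := Option.ne_none_iff_exists'.1 hl
    have hb : B (ι a) := by
      by_contra hb
      exact ha ((hc.cover a).2 hb)
    obtain ⟨j, i, hi, e⟩ := hb
    have hx' : lab ((s ^ i) (ω j)) = some (linv x) := by rw [← e, h.inv, hx]; rfl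
    obtain ⟨k, hk, e1, e2⟩ := key f1 f0 (hc.per j) hi hx'
    rw [← e, si] at e2
    refine EqvGen.symm _ _ (EqvGen.rel _ _ ⟨j, k, hk, by rw [f1 a x hx]; exact e1, ?_⟩)
    exact e2.trans (linv_linv _).symm
  have fi : ∀ a, lab a = none → f (ι a) = f (τ a) := fun a ha => by
    rw [f0 (ι a) (by rw [h.inv, ha]; rfl), si]
  have H2 : ∀ (j : ℕ) a, ¬ B a → lab ((s ^ j) a) ≠ none → H a := by
    intro j
    induction j with
    | zero => exact fun a ha hl => H1 a ha hl
    | succ j ih =>
      intro a ha hl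
      by_cases h0 : lab a = none
      · have := ih (s a) (fun hb => ha (Bs a hb)) (by simpa [pow_succ] using hl)
        have e : τ (s a) = ι a := by rw [hs, Perm.mul_apply, tt]
        show E (linv (f (τ a))) (linv (f a))
        rw [← fi a h0, f0 a h0, ← e]
        exact this
      · exact H1 a ha h0
  have H3 : ∀ a, H a := by
    intro a
    by_cases ha : B a
    · have hb : ¬ B (τ a) := fun hb => (hc.cover a).1 ha (Bs _ (by rwa [si]))
      obtain ⟨j, hj⟩ := h.cyc (τ a)
      have := H2 j _ hb hj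
      refine EqvGen.symm _ _ ?_
      simpa only [H, tt] using this
    · obtain ⟨j, hj⟩ := h.cyc a
      exact H2 j a ha hj
  have all : ∀ a a', E (linv (f a)) (linv (f a')) := by
    intro a a'
    induction h.conn a a' with
    | rel a a' r =>
      rcases r with rfl | ⟨h0, rfl⟩ | ⟨h0, e⟩
      · exact EqvGen.symm _ _ (H3 a)
      · rw [fi a h0]; exact EqvGen.symm _ _ (H3 a)
      · obtain ⟨x, hx⟩ := Option.ne_none_iff_exists'.1 h0
        rw [f1 a x hx, f1 a' x (e.trans hx)]
        exact EqvGen.refl _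
    | refl a => exact EqvGen.refl _
    | symm a a' _ ih => exact EqvGen.symm _ _ ih
    | trans a a' a'' _ _ ih ih' => exact EqvGen.trans _ _ _ ih ih'
  intro x y
  obtain ⟨a, a1, -, ha⟩ := h.two (linv x)
  obtain ⟨a', a2, -, ha'⟩ := h.two (linv y)
  have := all a a'
  rwa [f1 a _ ((ha a).2 (Or.inl rfl)), f1 a' _ ((ha' a').2 (Or.inl rfl)), linv_linv,
    linv_linv] at this

end Pool.Agent.Lib.FBC.RIB
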