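import Pool.Agent.Lib.FBC.RIB.GLUE
import Pool.Agent.Lib.FBC.RIB.Final
import Pool.Agent.Lib.FBC.RIB.NOCYC
import Pool.Agent.Lib.FBC.RIB.POT
import Pool.Agent.Lib.FBC.RIB.POTF
import Pool.Agent.Lib.FBC.RIB.SEC
import Pool.Agent.Lib.FBC.RIB.LAB
import Pool.Agent.Lib.FBC.RIB.BAS2
import Pool.Agent.Lib.FBC.RIB.ELL
import Pool.Agent.Lib.FBC.RIB.CYC
import Pool.Agent.Lib.FBC.RIB.CNT
import Pool.Agent.Lib.FBC.RIB.WH
import Pool.Agent.Lib.FBC.RIB.CONJ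
import Pool.Agent.Lib.FBC.RIB.ROOT

/-!
From a ribbon tree to a basis and boundary words.
-/

namespace Pool.Agent.Lib.FBC.RIB

theorem stRIB : St_RIB :=
  stRIB_of stNOCYC stSEC stLAB (stBAS2 (stPOTF stPOT)) stELL stCYC stCNT stWH stCONJ stROOT

end Pool.Agent.Lib.FBC.RIB
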