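import Pool.Agent.Lib.FBC.RIB.Base

/-!
Blueprint of the passage from a ribbon tree to a basis and boundary words.
-/

namespace Pool.Agent.Lib.FBC.RIB

open Forest Relation

/-- An equivariant section of the flags whose fibre is a disc. -/
structure Sec {K : Type} [Group K] {T : Forest (1 : Dg K)} (R : Ribbon T) where
  /-- the position of a flag -/
  π : R.Fl → K
  /-- the edge orbits inside the disc -/
  Z : Set T.I
  smul : ∀ (k : K) ξ, π (k • ξ) = k * π ξ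
  opp : ∀ ξ, π (oP R ξ) = π ξ
  rev : ∀ ξ, ty R (p R ξ) ∈ Z → π (rP R ξ) = π ξ
  loc : ∀ ξ ζ, src R ξ = src R ζ → ∃ k : K, k • src R ξ = src R ξ ∧ π ζ = k * π ξ
  conn : ∀ ξ ζ, π ξ = π ζ → EqvGen (fun x y => y = oP R x ∨ (y = nP R x ∧ π y = π x) ∨
    (y = rP R x ∧ ty R (p R x) ∈ Z)) ξ ζ
  loop : ∀ φ ψ : Q R, EqvGen (fun x y => y = qn R x ∨ (ty R x ∈ Z ∧ y = qr R x) ∨
    (ty R x ∉ Z ∧ y = qo R x)) φ ψ

/-- Letters for the sides of the disc: `l0` labels the reversals, `l1` labels the turns. -/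
structure Lab {K : Type} [Group K] {T : Forest (1 : Dg K)} {R : Ribbon T} (S : Sec R) (m : ℕ) where
  /-- the group elements of the letters -/
  y : Fin m → K
  /-- labels of reversals -/
  l0 : Q R → Option (Fin m × Bool)
  /-- labels of turns -/
  l1 : Q R → Option (Fin m × Bool)
  ev0 : ∀ ξ, S.π (rP R ξ) = S.π ξ * ev y (l0 (p R ξ))
  ev1 : ∀ ξ, S.π (nP R ξ) = S.π ξ * ev y (l1 (p R ξ))
  none0 : ∀ φ, l0 φ = none ↔ ty R φ ∈ S.Z
  none1 : ∀ ξ, l1 (p R ξ) = none ↔ S.π (nP R ξ) = S.π ξ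
  inv0 : ∀ φ, l0 (qr R φ) = (l0 φ).map linv
  inv1 : ∀ φ, l1 (qn R φ) = (l1 φ).map linv
  opp0 : ∀ φ, l0 (qo R φ) = l0 φ
  two : ∀ x, (∃ φ, (∀ ψ, l0 ψ = some x ↔ ψ = φ ∨ ψ = qo R φ) ∧ ∀ ψ, l1 ψ ≠ some x) ∨
    (∃ φ, (∀ ψ, l1 ψ = some x ↔ ψ = φ) ∧ ∀ ψ, l0 ψ ≠ some x)

/-- the word read along `n` steps of the orbit of `ω` -/
def W {Ω Λ : Type} (σ : Equiv.Perm Ω) (lab : Ω → Option Λ) (ω : Ω) (n : ℕ) : List Λ :=
  (List.range n).filterMap fun i => lab ((σ ^ i) ω)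

/-- A finite labelled system of unoriented cycles: two involutions without fixed points, the
steps `ι` carry optional signed letters. -/
structure Gem {Ω : Type} {m : ℕ} (τ ι : Equiv.Perm Ω) (lab : Ω → Option (Fin m × Bool)) : Prop where
  fin : Finite Ω
  τ2 : τ * τ = 1
  ι2 : ι * ι = 1
  τne : ∀ a, τ a ≠ a
  ιne : ∀ a, ι a ≠ a
  inv : ∀ a, lab (ι a) = (lab a).map linv
  cyc : ∀ a, ∃ j : ℕ, lab (((τ * ι) ^ j) a) ≠ none
  two : ∀ x, ∃ a b, a ≠ b ∧ ∀ c, lab c = some x ↔ c = a ∨ c = b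
  conn : ∀ a b, EqvGen (fun a b => b = τ a ∨ (lab a = none ∧ b = ι a) ∨
    (lab a ≠ none ∧ lab b = lab a)) a b

/-- A choice of one orientation and one base point on each unoriented cycle. -/
structure Cyc {Ω : Type} (σ ι : Equiv.Perm Ω) {b : ℕ} (ω : Fin b → Ω) (q : Fin b → ℕ) : Prop where
  pos : ∀ j, 0 < q j
  per : ∀ j, (σ ^ q j) (ω j) = ω j
  inj : ∀ j j' i i', i < q j → i' < q j' → (σ ^ i) (ω j) = (σ ^ i') (ω j') → j = j' ∧ i = i'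
  cover : ∀ a, (∃ j i, i < q j ∧ a = (σ ^ i) (ω j)) ↔ ¬ ∃ j i, i < q j ∧ ι a = (σ ^ i) (ω j)

/-- boundary lines do not close up -/
def St_NOCYC : Prop := ∀ (K : Type) [Group K] (T : Forest (1 : Dg K)) (R : Ribbon T),
  (∀ a, T.lev a = 0) → ∀ (ξ : R.Fl) (n : ℕ), (R.next ^ n) ξ = ξ → n = 0

/-- potential of a cochain with values in any group -/
def St_POT : Prop := ∀ (K : Type) [Group K] (T : Forest (1 : Dg K)), (∀ a, T.lev a = 0) →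
  ∀ (H : Type) [Group H] (μ : T.E → H), ∃ Ψ : T.V → H,
    ∀ c : T.E, Ψ (c.ed true) = Ψ (c.ed false) * μ c

/-- potential on flags -/
def St_POTF : Prop := ∀ (K : Type) [Group K], TF K → ∀ (T : Forest (1 : Dg K)) (R : Ribbon T),
  (∀ a, T.lev a = 0) → R.Conn → ∀ (H : Type) [Group H] (μ ν : R.Fl → H),
  (∀ ξ, μ (rP R ξ) = (μ ξ)⁻¹) → (∀ ξ, μ (oP R ξ) = μ ξ) → (∀ ξ, ν (nP R ξ) = (ν ξ)⁻¹) →
  (∀ ξ, (∀ k : K, k • src R ξ = src R ξ → k = 1) → ν ξ = 1) →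
  ∃ Ψ : R.Fl → H, (∀ ξ, Ψ (oP R ξ) = Ψ ξ) ∧ (∀ ξ, Ψ (rP R ξ) = Ψ ξ * μ ξ) ∧
    ∀ ξ, Ψ (nP R ξ) = Ψ ξ * ν ξ

/-- existence of the section -/
def St_SEC : Prop := ∀ (K : Type) [Group K], TF K → ∀ (T : Forest (1 : Dg K)) (R : Ribbon T),
  (∀ a, T.lev a = 0) → R.Conn → Nonempty (Sec R)

/-- existence of the letters -/
def St_LAB : Prop := ∀ (K : Type) [Group K], TF K → ∀ (T : Forest (1 : Dg K)) (R : Ribbon T)
  (S : Sec R), ∃ m, Nonempty (Lab S m)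

/-- the letters form a basis -/
def St_BAS : Prop := ∀ (K : Type) [Group K], TF K → ∀ (T : Forest (1 : Dg K)) (R : Ribbon T),
  (∀ a, T.lev a = 0) → Nonempty T.I → R.Conn → ∀ (S : Sec R) (m : ℕ) (L : Lab S m),
  ∃ β : FreeGroupBasis (Fin m) K, ∀ i, β i = L.y i

/-- elliptic elements are conjugate to powers of letters of turns -/
def St_ELL : Prop := ∀ (K : Type) [Group K], TF K → ∀ (T : Forest (1 : Dg K)) (R : Ribbon T),
  (∀ a, T.lev a = 0) → Nonempty T.I → R.Conn → ∀ (S : Sec R) (m : ℕ) (L : Lab S m)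
  (β : FreeGroupBasis (Fin m) K), (∀ i, β i = L.y i) → ∀ (x : K) (a : T.V), x • a = a → x ≠ 1 →
  ∃ (φ : Q R) (z : Fin m × Bool) (w : K) (n : ℤ), L.l1 φ = some z ∧ x = w * L.y z.1 ^ n * w⁻¹

/-- choice of the cycles -/
def St_CYC : Prop := ∀ (Ω : Type) (m : ℕ) (τ ι : Equiv.Perm Ω) (lab : Ω → Option (Fin m × Bool)),
  Gem τ ι lab → ∃ (b : ℕ) (ω : Fin b → Ω) (q : Fin b → ℕ), Cyc (τ * ι) ι ω q

/-- the words are nonempty and every letter occurs twice -/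
def St_CNT : Prop := ∀ (Ω : Type) (m : ℕ) (τ ι : Equiv.Perm Ω) (lab : Ω → Option (Fin m × Bool)),
  Gem τ ι lab → ∀ (b : ℕ) (ω : Fin b → Ω) (q : Fin b → ℕ), Cyc (τ * ι) ι ω q →
  (∀ j, W (τ * ι) lab (ω j) (q j) ≠ []) ∧
    ∀ i : Fin m, ∑ j, ((W (τ * ι) lab (ω j) (q j)).map Prod.fst).count i = 2

/-- the Whitehead graph is connected -/
def St_WH : Prop := ∀ (Ω : Type) (m : ℕ) (τ ι : Equiv.Perm Ω) (lab : Ω → Option (Fin m × Bool)),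
  Gem τ ι lab → ∀ (b : ℕ) (ω : Fin b → Ω) (q : Fin b → ℕ), Cyc (τ * ι) ι ω q →
  ∀ x y, EqvGen (Wh fun j => W (τ * ι) lab (ω j) (q j)) x y

/-- closed orbits spell conjugates of powers of the chosen words -/
def St_CONJ : Prop := ∀ (Ω : Type) (m : ℕ) (τ ι : Equiv.Perm Ω) (lab : Ω → Option (Fin m × Bool)),
  Gem τ ι lab → ∀ (b : ℕ) (ω : Fin b → Ω) (q : Fin b → ℕ), Cyc (τ * ι) ι ω q →
  ∀ (a : Ω) (n : ℕ), ((τ * ι) ^ n) a = a → ∃ (j : Fin b) (w : FreeGroup (Fin m)) (k : ℤ),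
    FreeGroup.mk (W (τ * ι) lab a n) = w * FreeGroup.mk (W (τ * ι) lab (ω j) (q j)) ^ k * w⁻¹

/-- boundary words are not proper powers up to conjugacy -/
def St_ROOT : Prop := ∀ (m b : ℕ) (c : Fin b → List (Fin m × Bool)), SurfW c →
  ∀ (i j : Fin b) (w : FreeGroup (Fin m)) (n : ℤ),
    FreeGroup.mk (c j) = w * FreeGroup.mk (c i) ^ n * w⁻¹ → n = 1 ∨ n = -1

end Pool.Agent.Lib.FBC.RIB
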