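import Pool.Agent.Lib.FBC.RIB.Blue

/-!
Closed orbits spell conjugates of powers of the chosen words.
-/

namespace Pool.Agent.Lib.FBC.RIB

namespace CONJ

variable {Ω : Type} {m : ℕ} (σ : Equiv.Perm Ω) (lab : Ω → Option (Fin m × Bool))

/-- the group element read along `n` steps -/
def F (a : Ω) (n : ℕ) : FreeGroup (Fin m) := FreeGroup.mk (W σ lab a n)

lemma F_zero (a : Ω) : F σ lab a 0 = 1 := by
  simp [F, W, FreeGroup.one_eq_mk]

lemma F_succ (a : Ω) (n : ℕ) :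
    F σ lab a (n + 1) = F σ lab a n * ev FreeGroup.of (lab ((σ ^ n) a)) := by
  unfold F W
  rw [List.range_succ, List.filterMap_append, ← FreeGroup.mul_mk]
  congr 1
  rcases h : lab ((σ ^ n) a) with _ | ⟨i, _ | _⟩
  · simp [h, ev, FreeGroup.one_eq_mk]
  · simp [h, ev, FreeGroup.of, FreeGroup.inv_mk, FreeGroup.invRev]
  · simp [h, ev, FreeGroup.of]

lemma F_add (a : Ω) (i n : ℕ) : F σ lab a (i + n) = F σ lab a i * F σ lab ((σ ^ i) a) n := by
  induction n with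
  | zero => simp [F_zero]
  | succ n ih =>
    rw [← add_assoc, F_succ, F_succ, ih, mul_assoc, ← Equiv.Perm.mul_apply, ← pow_add,
      add_comm n i]

lemma pow_mul_fix {a : Ω} {q : ℕ} (h : (σ ^ q) a = a) (k : ℕ) : (σ ^ (q * k)) a = a := by
  induction k with
  | zero => simp
  | succ k ih => rw [Nat.mul_succ, pow_add, Equiv.Perm.mul_apply, h, ih]

lemma F_mul {a : Ω} {q : ℕ} (h : (σ ^ q) a = a) (k : ℕ) :
    F σ lab a (q * k) = F σ lab a q ^ k := by
  induction k with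
  | zero => simp [F_zero]
  | succ k ih => rw [Nat.mul_succ, F_add, pow_mul_fix σ h, ih, pow_succ]

lemma on_cycle {ι : Equiv.Perm Ω} {b : ℕ} {ω : Fin b → Ω} {q : Fin b → ℕ} (C : Cyc σ ι ω q)
    (j : Fin b) (i n : ℕ) (h : (σ ^ n) ((σ ^ i) (ω j)) = (σ ^ i) (ω j)) :
    ∃ (w : FreeGroup (Fin m)) (k : ℕ),
      F σ lab ((σ ^ i) (ω j)) n = w * F σ lab (ω j) (q j) ^ k * w⁻¹ := by
  have h1 : (σ ^ n) (ω j) = ω j := by
    apply (σ ^ i).injective
    rw [← Equiv.Perm.mul_apply, ← pow_add, add_comm, pow_add, Equiv.Perm.mul_apply, h]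
  have h2 : (σ ^ (n % q j)) (ω j) = (σ ^ 0) (ω j) := by
    have := h1
    rw [← Nat.mod_add_div n (q j), pow_add, Equiv.Perm.mul_apply, pow_mul_fix σ (C.per j)] at this
    simpa using this
  have h3 := (C.inj j j _ _ (Nat.mod_lt _ (C.pos j)) (C.pos j) h2).2
  obtain ⟨k, rfl⟩ := Nat.dvd_of_mod_eq_zero h3
  refine ⟨(F σ lab (ω j) i)⁻¹, k, ?_⟩
  have e1 := F_add σ lab (ω j) i (q j * k)
  have e2 := F_add σ lab (ω j) (q j * k) i
  rw [h1, F_mul σ lab (C.per j), add_comm, e1] at e2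
  rw [inv_inv, mul_assoc, ← e2]
  group

end CONJ

open CONJ in
theorem stCONJ : St_CONJ := by
  intro Ω m τ ι lab G b ω q C a n hn
  have ιι : ∀ a, ι (ι a) = a := fun a => by rw [← Equiv.Perm.mul_apply, G.ι2]; rfl
  have ττ : ∀ a, τ (τ a) = a := fun a => by rw [← Equiv.Perm.mul_apply, G.τ2]; rfl
  have sis : ∀ a, (τ * ι) (ι ((τ * ι) a)) = ι a := fun a => by
    simp only [Equiv.Perm.mul_apply, ιι, ττ]
  have back : ∀ (n : ℕ) a, ((τ * ι) ^ n) (ι (((τ * ι) ^ n) a)) = ι a := by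
    intro n
    induction n with
    | zero => simp
    | succ n ih =>
      intro a
      rw [pow_succ (τ * ι) n, Equiv.Perm.mul_apply, ← pow_succ, pow_succ' (τ * ι) n,
        Equiv.Perm.mul_apply (τ * ι) ((τ * ι) ^ n), sis, ih]
  have inv : ∀ (n : ℕ), F (τ * ι) lab (ι (((τ * ι) ^ n) a)) (n + 1) =
      (F (τ * ι) lab a (n + 1))⁻¹ := by
    intro n
    induction n with
    | zero => simp [F_succ, F_zero, G.inv, ev_linv]
    | succ n ih =>
      rw [add_comm (n + 1) 1, F_add, pow_one, pow_succ' (τ * ι) n,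
        Equiv.Perm.mul_apply (τ * ι) ((τ * ι) ^ n), sis, ih, add_comm 1 (n + 1),
        F_succ _ _ a (n + 1), F_succ _ _ _ 0, F_zero, pow_zero, pow_succ' (τ * ι) n]
      simp [G.inv, ev_linv]
  by_cases ha : ∃ j i, i < q j ∧ a = ((τ * ι) ^ i) (ω j)
  · obtain ⟨j, i, -, rfl⟩ := ha
    obtain ⟨w, k, h⟩ := on_cycle (τ * ι) lab C j i n hn
    exact ⟨j, w, k, by simpa [F] using h⟩
  · obtain ⟨j, i, -, hi⟩ := not_not.1 (mt (C.cover a).2 ha)
    rcases n with _ | n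
    · exact ⟨j, 1, 0, by simpa [F] using F_zero (τ * ι) lab a⟩
    · have e : ι (((τ * ι) ^ n) a) = ((τ * ι) ^ (i + 1)) (ω j) := by
        rw [pow_succ' (τ * ι) i, Equiv.Perm.mul_apply, ← hi, ← sis (((τ * ι) ^ n) a),
          ← Equiv.Perm.mul_apply (τ * ι) ((τ * ι) ^ n), ← pow_succ', hn]
      have p1 : ((τ * ι) ^ (n + 1)) (ι a) = ι a := by
        have := back (n + 1) a
        rwa [hn] at this
      have p2 : ((τ * ι) ^ (n + 1)) (((τ * ι) ^ (i + 1)) (ω j)) = ((τ * ι) ^ (i + 1)) (ω j) := by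
        rw [pow_succ' (τ * ι) i, Equiv.Perm.mul_apply (τ * ι) ((τ * ι) ^ i), ← hi,
          ← Equiv.Perm.mul_apply ((τ * ι) ^ (n + 1)), ← pow_succ, pow_succ',
          Equiv.Perm.mul_apply (τ * ι) ((τ * ι) ^ (n + 1)), p1]
      obtain ⟨w, k, h⟩ := on_cycle (τ * ι) lab C j (i + 1) (n + 1) p2
      rw [← e, inv] at h
      refine ⟨j, w, -(k : ℤ), ?_⟩
      have h' := congrArg (·⁻¹) h
      simp only [inv_inv, mul_inv_rev] at h'
      change F (τ * ι) lab a (n + 1) = w * F (τ * ι) lab (ω j) (q j) ^ (-(k : ℤ)) * w⁻¹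
      rw [h', zpow_neg, zpow_natCast, mul_assoc]

end Pool.Agent.Lib.FBC.RIB
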