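import Pool.Agent.Lib.FBC.RIB.Blue

/-!
Assembly of the basis and the boundary words of a ribbon tree.
-/

namespace Pool.Agent.Lib.FBC.RIB

open Forest Relation

namespace GLUE

lemma W_succ {Ω Λ : Type} (σ : Equiv.Perm Ω) (lab : Ω → Option Λ) (a : Ω) (n : ℕ) :
    W σ lab a (n + 1) = W σ lab a n ++ (lab ((σ ^ n) a)).toList := by
  unfold W
  rw [List.range_succ, List.filterMap_append]
  cases h : lab ((σ ^ n) a) <;> simp [h]

lemma mk_toList {Λ : Type} (x : Option (Λ × Bool)) :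
    FreeGroup.mk x.toList = ev FreeGroup.of x := by
  rcases x with _ | ⟨i, _ | _⟩
  · rfl
  · exact (inv_inv _).symm.trans (congrArg Inv.inv rfl)
  · rfl

variable {K : Type} [Group K] {T : Forest (1 : Dg K)} {R : Ribbon T} {S : Sec R} {m : ℕ}
  (L : Lab S m)

lemma spell_succ {Ω : Type} (σ : Equiv.Perm Ω) (lab : Ω → Option (Fin m × Bool))
    {β : FreeGroupBasis (Fin m) K} (hβ : ∀ i, β i = L.y i) (a : Ω) (n : ℕ) :
    spell β (W σ lab a (n + 1)) = spell β (W σ lab a n) * ev L.y (lab ((σ ^ n) a)) := by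
  rw [spell, W_succ, ← FreeGroup.mul_mk, map_mul, mk_toList, spell]
  congr 1
  refine (map_ev β.repr.symm.toMonoidHom _ _).trans ?_
  congr 1
  exact funext hβ

lemma spell_zero {Ω : Type} (σ : Equiv.Perm Ω) (lab : Ω → Option (Fin m × Bool))
    (β : FreeGroupBasis (Fin m) K) (a : Ω) : spell β (W σ lab a 0) = 1 := map_one β.repr.symm

/-- the extra states, one for each labelled turn -/
def X : Type := {φ : Q R // L.l1 φ ≠ none}

/-- all states -/
def Om : Type := (Q R × Bool) ⊕ X L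

/-- the involution of the extra states -/
def xn (φ : X L) : X L := ⟨qn R φ.1, by rw [L.inv1]; simpa using φ.2⟩

lemma xn_xn (φ : X L) : xn L (xn L φ) = φ := Subtype.ext (qn_qn R _)

/-- change of the type of the next step -/
def tau : Equiv.Perm (Om L) :=
  Function.Involutive.toPerm (Sum.map (fun s => (s.1, !s.2)) (xn L)) (by
    rintro (⟨φ, b⟩ | φ) <;> simp [xn_xn])

/-- the step -/
def iota : Equiv.Perm (Om L) :=
  Function.Involutive.toPerm
    (Sum.map (fun s => (cond s.2 (qn R s.1) (qr R s.1), s.2)) (xn L)) (by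
      rintro (⟨φ, _ | _⟩ | φ) <;> simp [xn_xn])

/-- labels of the states -/
def lab : Om L → Option (Fin m × Bool) :=
  Sum.elim (fun s => cond s.2 (L.l1 s.1) (L.l0 s.1)) fun φ => L.l1 φ.1

/-- an ordinary state -/
def st (φ : Q R) (b : Bool) : Om L := Sum.inl (φ, b)

/-- an extra state -/
def ex (φ : X L) : Om L := Sum.inr φ

lemma om_cases (a : Om L) : (∃ φ b, a = st L φ b) ∨ ∃ φ, a = ex L φ := by
  rcases a with ⟨φ, b⟩ | φ
  · exact Or.inl ⟨φ, b, rfl⟩
  · exact Or.inr ⟨φ, rfl⟩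

lemma st_inj {φ ψ : Q R} {b c : Bool} : st L φ b = st L ψ c ↔ φ = ψ ∧ b = c :=
  Sum.inl_injective.eq_iff.trans Prod.mk_inj

lemma st_ne_ex (φ : Q R) (b : Bool) (ψ : X L) : st L φ b ≠ ex L ψ := Sum.inl_ne_inr
lemma ex_inj {φ ψ : X L} : ex L φ = ex L ψ ↔ φ = ψ := Sum.inr_injective.eq_iff

lemma tau_st (φ : Q R) (b : Bool) : tau L (st L φ b) = st L φ (!b) := rfl
lemma tau_ex (φ : X L) : tau L (ex L φ) = ex L (xn L φ) := rfl
lemma iota_false (φ : Q R) : iota L (st L φ false) = st L (qr R φ) false := rfl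
lemma iota_true (φ : Q R) : iota L (st L φ true) = st L (qn R φ) true := rfl
lemma iota_ex (φ : X L) : iota L (ex L φ) = ex L (xn L φ) := rfl
lemma lab_false (φ : Q R) : lab L (st L φ false) = L.l0 φ := rfl
lemma lab_true (φ : Q R) : lab L (st L φ true) = L.l1 φ := rfl
lemma lab_ex (φ : X L) : lab L (ex L φ) = L.l1 φ.1 := rfl

lemma sig_ex (φ : X L) (n : ℕ) : ((tau L * iota L) ^ n) (ex L φ) = ex L φ :=
  Equiv.Perm.pow_apply_eq_self_of_apply_eq_self (by
    rw [Equiv.Perm.mul_apply, iota_ex, tau_ex, xn_xn]) n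

variable (R) in
/-- the step on flags -/
def up (s : R.Fl × Bool) : R.Fl × Bool := (cond s.2 (nP R s.1) (rP R s.1), !s.2)

/-- the state of a flag -/
def dn (s : R.Fl × Bool) : Om L := st L (p R s.1) s.2

lemma sig_dn (s : R.Fl × Bool) (n : ℕ) :
    ((tau L * iota L) ^ n) (dn L s) = dn L ((up R)^[n] s) := by
  induction n with
  | zero => rfl
  | succ n ih =>
    rw [pow_succ', Equiv.Perm.mul_apply, ih, Function.iterate_succ_apply']
    rcases (up R)^[n] s with ⟨η, _ | _⟩ <;> rfl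

lemma pi_up (s : R.Fl × Bool) : S.π (up R s).1 = S.π s.1 * ev L.y (lab L (dn L s)) := by
  rcases s with ⟨η, _ | _⟩
  · exact L.ev0 η
  · exact L.ev1 η

lemma pi_iter {β : FreeGroupBasis (Fin m) K} (hβ : ∀ i, β i = L.y i) (s : R.Fl × Bool) (n : ℕ) :
    S.π ((up R)^[n] s).1 = S.π s.1 * spell β (W (tau L * iota L) (lab L) (dn L s) n) := by
  induction n with
  | zero => rw [spell_zero, mul_one]; rfl
  | succ n ih =>
    rw [Function.iterate_succ_apply', pi_up L, spell_succ L _ _ hβ, sig_dn, ih, mul_assoc]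

lemma up_two (ξ : R.Fl) (n : ℕ) : (up R)^[2 * n] (ξ, false) = ((R.next ^ n) ξ, false) := by
  induction n with
  | zero => rfl
  | succ n ih =>
    rw [Nat.mul_succ, add_comm, Function.iterate_add_apply, ih, pow_succ', Equiv.Perm.mul_apply,
      ← nP_rP]
    rfl

lemma rP_next (j : ℤ) (ξ : R.Fl) : rP R ((R.next ^ j) ξ) = (R.next ^ (-j)) (rP R ξ) := by
  have ia : (rP R)⁻¹ = rP R := inv_eq_of_mul_eq_one_right (rP_sq R)
  have ib : (nP R)⁻¹ = nP R := inv_eq_of_mul_eq_one_right (nP_sq R)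
  have : rP R * R.next * (rP R)⁻¹ = R.next⁻¹ := by
    rw [next_eq, mul_inv_rev, ib, mul_assoc, mul_inv_cancel_right, ia]
  rw [zpow_neg, ← inv_zpow, ← this, conj_zpow, ← Equiv.Perm.mul_apply, ← Equiv.Perm.mul_apply,
    inv_mul_cancel_right]

lemma on_line (s : R.Fl × Bool) (n : ℕ) : ∃ j : ℤ, ((up R)^[n] s).1 =
    (R.next ^ j) (if ((up R)^[n] s).2 = s.2 then s.1 else rP R s.1) := by
  induction n with
  | zero => exact ⟨0, by simp⟩
  | succ n ih =>
    obtain ⟨j, e⟩ := ih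
    rw [Function.iterate_succ_apply']
    generalize (up R)^[n] s = t at e
    have e1 : rP R t.1 = (R.next ^ (-j)) (if (!t.2) = s.2 then s.1 else rP R s.1) := by
      rw [e, rP_next]
      cases t.2 <;> cases s.2 <;> simp
    rcases t with ⟨η, _ | _⟩
    · exact ⟨-j, e1⟩
    · refine ⟨1 + -j, ?_⟩
      rw [zpow_one_add, Equiv.Perm.mul_apply]
      exact (congrArg R.next e1 :)

/-- a closed orbit of states lifts to a translation -/
lemma lift_closed {s : R.Fl × Bool} {n : ℕ} (h : ((tau L * iota L) ^ n) (dn L s) = dn L s) :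
    ∃ k : K, (up R)^[n] s = (k • s.1, s.2) := by
  rw [sig_dn] at h
  obtain ⟨h1, h2⟩ := (st_inj L).1 h
  obtain ⟨k, e⟩ := (p_eq R).1 h1
  exact ⟨k, Prod.ext e.symm h2⟩

lemma gem (hN : St_NOCYC) (hK : TF K) (hl : ∀ a, T.lev a = 0) : Gem (tau L) (iota L) (lab L) := by
  have fin : Finite (Om L) := by unfold Om X; infer_instance
  have xne : ∀ φ, xn L φ ≠ φ := fun φ h => qn_ne R hK φ.1 (congrArg Subtype.val h)
  refine ⟨fin, Equiv.ext fun a => Equiv.left_inv (tau L) a,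
    Equiv.ext fun a => Equiv.left_inv (iota L) a, fun a => ?_, fun a => ?_, fun a => ?_,
    fun a => ?_, fun x => ?_, ?_⟩
  · rcases om_cases L a with ⟨φ, b, rfl⟩ | ⟨φ, rfl⟩
    · simp [tau_st, st_inj]
    · simp [tau_ex, ex_inj, xne]
  · rcases om_cases L a with ⟨φ, _ | _, rfl⟩ | ⟨φ, rfl⟩
    · simp [iota_false, st_inj, qr_ne]
    · simp [iota_true, st_inj, qn_ne R hK]
    · simp [iota_ex, ex_inj, xne]
  · rcases om_cases L a with ⟨φ, _ | _, rfl⟩ | ⟨φ, rfl⟩
    · exact L.inv0 φ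
    · exact L.inv1 φ
    · exact L.inv1 φ.1
  · rcases om_cases L a with ⟨φ, b, rfl⟩ | ⟨φ, rfl⟩
    swap
    · exact ⟨0, φ.2⟩
    obtain ⟨ξ, rfl⟩ := p_surj R φ
    by_contra! hc
    have c : ∀ n, S.π ((up R)^[n] (ξ, b)).1 = S.π ξ := fun n => by
      induction n with
      | zero => rfl
      | succ n ih =>
        rw [Function.iterate_succ_apply', pi_up L, ← sig_dn, ih]
        exact (congrArg (fun x => S.π ξ * ev L.y x) (hc n)).trans (mul_one _)
    have hpos := orderOf_pos (tau L * iota L)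
    obtain ⟨k, e⟩ := lift_closed L (s := (ξ, b)) (n := orderOf (tau L * iota L))
      (by rw [pow_orderOf_eq_one]; rfl)
    generalize orderOf (tau L * iota L) = n at hpos e
    have k1 : k = 1 := by
      have := c n
      rw [e, S.smul] at this
      exact mul_eq_right.1 this
    rw [k1, one_smul] at e
    have per : Function.IsPeriodicPt (up R) n (ξ, b) := e
    have fin : ∀ η : R.Fl, ¬ Function.IsPeriodicPt (up R) n (η, false) := fun η h => by
      have := (up_two η n).symm.trans (h.const_mul 2)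
      exact hpos.ne' (hN K T R hl η n (congrArg Prod.fst this))
    cases b
    · exact fin _ per
    · exact fin _ per.apply
  · rcases L.two x with ⟨φ, h1, h2⟩ | ⟨φ, h1, h2⟩
    · refine ⟨st L φ false, st L (qo R φ) false, by simp [st_inj, (qo_ne R φ).symm], fun c => ?_⟩
      rcases om_cases L c with ⟨ψ, _ | _, rfl⟩ | ⟨ψ, rfl⟩
      · simp [lab_false, st_inj, h1]
      · simp [lab_true, st_inj, h2]
      · simp [lab_ex, (st_ne_ex L _ _ _).symm, h2]
    · refine ⟨st L φ true, ex L ⟨φ, by simp [(h1 φ).2 rfl]⟩, st_ne_ex L _ _ _, fun c => ?_⟩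
      rcases om_cases L c with ⟨ψ, _ | _, rfl⟩ | ⟨ψ, rfl⟩
      · simp [lab_false, st_inj, st_ne_ex, h2]
      · simp [lab_true, st_inj, st_ne_ex, h1]
      · rw [lab_ex, h1, ex_inj]
        simp [(st_ne_ex L _ _ _).symm, X, Subtype.ext_iff]
  · set E := EqvGen (fun a b => b = tau L a ∨ (lab L a = none ∧ b = iota L a) ∨
      (lab L a ≠ none ∧ lab L b = lab L a)) with hE
    have eq : Equivalence E := EqvGen.is_equivalence _
    have t : ∀ a, E a (tau L a) := fun a => .rel _ _ (Or.inl rfl)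
    have i : ∀ a, lab L a = none → E a (iota L a) := fun a h => .rel _ _ (Or.inr (Or.inl ⟨h, rfl⟩))
    have l : ∀ a b, lab L a ≠ none → lab L b = lab L a → E a b := fun a b h h' =>
      .rel _ _ (Or.inr (Or.inr ⟨h, h'⟩))
    have h1 : ∀ φ ψ, E (st L φ true) (st L ψ true) := fun φ ψ => by
      induction S.loop φ ψ with
      | rel φ ψ h =>
        rcases h with rfl | ⟨h, rfl⟩ | ⟨h, rfl⟩
        · by_cases e : L.l1 φ = none
          · exact i _ e
          · exact eq.trans (l _ (ex L ⟨φ, e⟩) e rfl) (eq.trans (t _)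
              (l _ _ (xn L ⟨φ, e⟩).2 rfl))
        · exact eq.trans (t _) (eq.trans (i _ ((L.none0 φ).2 h)) (t _))
        · exact eq.trans (t _) (eq.trans (l (st L φ false) (st L (qo R φ) false)
            (mt (L.none0 φ).1 h) (L.opp0 φ)) (t _))
      | refl => exact eq.refl _
      | symm _ _ _ ih => exact eq.symm ih
      | trans _ _ _ _ _ i1 i2 => exact eq.trans i1 i2
    have h2 : ∀ a, ∃ φ, E a (st L φ true) := fun a => by
      rcases om_cases L a with ⟨φ, _ | _, rfl⟩ | ⟨φ, rfl⟩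
      · exact ⟨φ, t _⟩
      · exact ⟨φ, eq.refl _⟩
      · exact ⟨φ.1, l _ _ φ.2 rfl⟩
    intro a b
    obtain ⟨φ, e1⟩ := h2 a
    obtain ⟨ψ, e2⟩ := h2 b
    exact eq.trans e1 (eq.trans (h1 φ ψ) (eq.symm e2))

lemma peri {β : FreeGroupBasis (Fin m) K} (hβ : ∀ i, β i = L.y i) {a : Om L} {n : ℕ}
    (h : ((tau L * iota L) ^ n) a = a) : R.Peri (spell β (W (tau L * iota L) (lab L) a n)) := by
  rcases om_cases L a with ⟨φ, b, rfl⟩ | ⟨φ, rfl⟩
  · obtain ⟨ξ, rfl, h1⟩ : ∃ ξ, p R ξ = φ ∧ S.π ξ = 1 := by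
      obtain ⟨ξ, rfl⟩ := p_surj R φ
      exact ⟨(S.π ξ)⁻¹ • ξ, p_smul R _ _, by rw [S.smul, inv_mul_cancel]⟩
    obtain ⟨k, e⟩ := lift_closed L (s := (ξ, b)) h
    have e1 := pi_iter L hβ (ξ, b) n
    obtain ⟨j, e2⟩ := on_line (ξ, b) n
    rw [e] at e1 e2
    rw [S.smul, h1, mul_one, one_mul] at e1
    exact Or.inr ⟨ξ, j, (congrArg (· • ξ) e1.symm).trans (by simpa using e2)⟩
  · obtain ⟨ξ, hξ⟩ := p_surj R φ.1
    obtain ⟨k, e1, e2⟩ := S.loc ξ (nP R ξ) (src_nP R ξ).symm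
    have e3 : ev L.y (L.l1 φ.1) = (S.π ξ)⁻¹ * k * S.π ξ := by
      rw [mul_assoc, ← e2, L.ev1, hξ, inv_mul_cancel_left]
    refine Or.inl ⟨(S.π ξ)⁻¹ • src R ξ, ?_⟩
    clear h
    induction n with
    | zero => rw [spell_zero, one_smul]
    | succ n ih =>
      rw [spell_succ L _ _ hβ, sig_ex, lab_ex, mul_smul, e3, mul_smul, mul_smul, smul_inv_smul, e1, ih]

/-- peripheral elements are spelled by closed orbits, up to conjugacy and powers -/
lemma of_peri (hE : St_ELL) (hK : TF K) (hl : ∀ a, T.lev a = 0) (hI : Nonempty T.I) (hc : R.Conn)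
    {β : FreeGroupBasis (Fin m) K} (hβ : ∀ i, β i = L.y i) {x : K} (hx : x ≠ 1) (h : R.Peri x) :
    ∃ (a : Om L) (n : ℕ) (w : K) (k : ℤ), ((tau L * iota L) ^ n) a = a ∧
      x = w * spell β (W (tau L * iota L) (lab L) a n) ^ k * w⁻¹ := by
  have line : ∀ (x : K) (ξ : R.Fl) (n : ℕ), x • ξ = (R.next ^ n) ξ →
      ((tau L * iota L) ^ (2 * n)) (dn L (ξ, false)) = dn L (ξ, false) ∧ x = S.π ξ *
        spell β (W (tau L * iota L) (lab L) (dn L (ξ, false)) (2 * n)) * (S.π ξ)⁻¹ := by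
    intro x ξ n e
    have e1 := pi_iter L hβ (ξ, false) (2 * n)
    rw [up_two, ← e, S.smul] at e1
    refine ⟨?_, eq_mul_inv_of_mul_eq e1⟩
    rw [sig_dn, up_two, ← e, dn, p_smul]; rfl
  rcases h with ⟨a, h⟩ | ⟨ξ, j, h⟩
  · obtain ⟨φ, ⟨i, b⟩, w, n, h1, h2⟩ := hE K hK T R hl hI hc S m L β hβ x a h hx
    have e : spell β (W (tau L * iota L) (lab L) (ex L ⟨φ, by simp [h1]⟩) 1) =
        ev L.y (some (i, b)) := by
      rw [spell_succ L _ _ hβ, spell_zero, one_mul, sig_ex, lab_ex, h1]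
    refine ⟨ex L ⟨φ, by simp [h1]⟩, 1, w, cond b n (-n), sig_ex L _ _, ?_⟩
    rw [e, h2]
    cases b <;> simp [ev]
  · obtain ⟨n, rfl | rfl⟩ := j.eq_nat_or_neg
    · obtain ⟨e1, e2⟩ := line x ξ n (by simpa using h)
      exact ⟨_, _, S.π ξ, 1, e1, by simpa using e2⟩
    · obtain ⟨e1, e2⟩ := line x⁻¹ ξ n (by
        rw [inv_smul_eq_iff, ← zpow_natCast, ← next_zpow_smul, h, ← Equiv.Perm.mul_apply,
          ← zpow_add, add_neg_cancel, zpow_zero, Equiv.Perm.one_apply])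
      refine ⟨_, _, S.π ξ, -1, e1, ?_⟩
      rw [← inv_inv x, e2]
      simp [mul_assoc]

end GLUE

open GLUE in
theorem stRIB_of (hN : St_NOCYC) (hS : St_SEC) (hL : St_LAB) (hB : St_BAS) (hE : St_ELL)
    (hC : St_CYC) (hT : St_CNT) (hW : St_WH) (hJ : St_CONJ) (hR : St_ROOT) : St_RIB := by
  intro K _ hF T R hl hI hc
  have hK := tf_of_free K hF
  obtain ⟨S⟩ := hS K hK T R hl hc
  obtain ⟨m, ⟨L⟩⟩ := hL K hK T R S
  obtain ⟨β, hβ⟩ := hB K hK T R hl hI hc S m L
  have G := gem L hN hK hl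
  obtain ⟨b, ω, q, C⟩ := hC _ m _ _ _ G
  have sw : SurfW fun j => W (tau L * iota L) (lab L) (ω j) (q j) :=
    ⟨(hT _ m _ _ _ G b ω q C).1, (hT _ m _ _ _ G b ω q C).2, hW _ m _ _ _ G b ω q C⟩
  have root : ∀ (i j : Fin b) (w : K) (n : ℤ), spell β (W (tau L * iota L) (lab L) (ω j) (q j)) =
      w * spell β (W (tau L * iota L) (lab L) (ω i) (q i)) ^ n * w⁻¹ → n = 1 ∨ n = -1 :=
    fun i j w n e => hR m b _ sw i j (β.repr w) n (by simpa [spell] using congrArg β.repr e)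
  refine ⟨m, b, β, _, sw, fun j => ⟨peri L hβ (C.per j), fun e => ?_⟩, fun x hx h => ?_, root⟩
  · simpa using root j j 1 0 (by simpa using e)
  · obtain ⟨a, n, w, k, h1, h2⟩ := of_peri L hE hK hl hI hc hβ hx h
    obtain ⟨j, w', k', h3⟩ := hJ _ m _ _ _ G b ω q C a n h1
    refine ⟨j, w * β.repr.symm w', k' * k, ?_⟩
    rw [h2, spell, h3, map_mul, map_mul, map_inv, map_zpow, conj_zpow, ← zpow_mul, spell]
    group

end Pool.Agent.Lib.FBC.RIB
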